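import Mathlib

set_option autoImplicit false

/-! # The additive energy of real quadratic sequences: counting lemmas (helper99) -/

namespace Pool.Agent.W99.QE

open Finset

/-- numbers `≤ M` in one residue class -/
lemma card_class (M q : ℕ) (hq : 1 ≤ q) (s : Finset ℕ) (hs : s ⊆ Icc 1 M)
    (h : ∀ x ∈ s, ∀ y ∈ s, (q : ℤ) ∣ (x : ℤ) - y) : s.card ≤ M / q + 1 := by
  have h1 : s.card ≤ (range (M / q + 1)).card := by
    apply card_le_card_of_injOn (fun x => x / q)
    · intro x hx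
      have := mem_Icc.1 (hs hx)
      simp only [coe_range, Set.mem_Iio]
      have := Nat.div_le_div_right (c := q) this.2
      omega
    · intro x hx y hy hxy
      have hd := h x hx y hy
      have h2 : x % q = y % q := by
        have : (x : ℤ) ≡ y [ZMOD q] := (Int.modEq_iff_dvd.2 (by
          have := h y hy x hx
          exact this))
        have h3 := (Int.natCast_modEq_iff (a := x) (b := y) (n := q)).1 this
        exact h3
      have e1 := Nat.div_add_mod x q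
      have e2 := Nat.div_add_mod y q
      have h4 : x / q = y / q := hxy
      rw [← e1, ← e2, h2, h4]
  simpa using h1

/-- one equation `i a - j b = T` -/
lemma card_line (M : ℕ) (i j T : ℤ) (hij : i ≠ 0 ∨ j ≠ 0) :
    (((Icc 1 M ×ˢ Icc 1 M).filter (fun p : ℕ × ℕ => i * p.1 - j * p.2 = T)).card : ℝ) ≤
      M * (Int.gcd i j : ℝ) / (max i.natAbs j.natAbs : ℕ) + 1 := by
  set g := Int.gcd i j with hg
  have hg0 : 0 < g := by
    rw [hg, Int.gcd_pos_iff]
    exact hij
  obtain ⟨i', hi'⟩ : (g : ℤ) ∣ i := Int.gcd_dvd_left ..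
  obtain ⟨j', hj'⟩ : (g : ℤ) ∣ j := Int.gcd_dvd_right ..
  have hcop : IsCoprime i' j' := by
    rw [Int.isCoprime_iff_gcd_eq_one]
    have h1 : Int.gcd i j = g * Int.gcd i' j' := by
      rw [hi', hj', Int.gcd_mul_left, Int.natAbs_natCast]
    have h2 : g * Int.gcd i' j' = g * 1 := by rw [← h1, mul_one]
    exact Nat.eq_of_mul_eq_mul_left hg0 h2
  have hgz : (g : ℤ) ≠ 0 := by exact_mod_cast hg0.ne'
  -- bound through a coordinate
  have key : ∀ q : ℕ, 1 ≤ q → ((Icc 1 M ×ˢ Icc 1 M).filter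
      (fun p : ℕ × ℕ => i * p.1 - j * p.2 = T)).card ≤ M / q + 1 →
      (((Icc 1 M ×ˢ Icc 1 M).filter (fun p : ℕ × ℕ => i * p.1 - j * p.2 = T)).card : ℝ) ≤
        M / (q : ℝ) + 1 := by
    intro q hq h
    have h1 : ((M / q : ℕ) : ℝ) ≤ M / (q : ℝ) := Nat.cast_div_le
    have h2 : (((Icc 1 M ×ˢ Icc 1 M).filter
      (fun p : ℕ × ℕ => i * p.1 - j * p.2 = T)).card : ℝ) ≤ ((M / q + 1 : ℕ) : ℝ) := by
      exact_mod_cast h
    push_cast at h2
    push_cast at h1
    linarith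
  have conv : ∀ (q m : ℕ), 1 ≤ q → m = g * q → (M : ℝ) / (q : ℝ) = M * (g : ℝ) / (m : ℝ) := by
    intro q m hq hm
    have : (q : ℝ) ≠ 0 := by exact_mod_cast (by omega : q ≠ 0)
    have hg' : (g : ℝ) ≠ 0 := by exact_mod_cast hg0.ne'
    rw [hm]
    push_cast
    field_simp
  rcases le_total j.natAbs i.natAbs with hle | hle
  · -- use `b`, modulo `|i'|`
    rw [max_eq_left hle]
    have hi0 : i ≠ 0 := by
      rintro h0
      rw [h0] at hle
      simp at hle
      rcases hij with h | h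
      · exact h h0
      · exact h hle
    have hi'0 : i' ≠ 0 := by
      rintro h0
      rw [h0, mul_zero] at hi'
      exact hi0 hi'
    have hq : 1 ≤ i'.natAbs := Int.natAbs_pos.2 hi'0
    rw [← conv i'.natAbs i.natAbs hq (by rw [hi', Int.natAbs_mul, Int.natAbs_natCast])]
    apply key _ hq
    set F := (Icc 1 M ×ˢ Icc 1 M).filter (fun p : ℕ × ℕ => i * p.1 - j * p.2 = T) with hF
    have hinj : F.card = (F.image Prod.snd).card := by
      rw [card_image_of_injOn]
      intro p hp p' hp' h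
      rw [hF, coe_filter, Set.mem_setOf_eq] at hp hp'
      have e : p.2 = p'.2 := h
      have e1 : i * (p.1 : ℤ) = i * (p'.1 : ℤ) := by
        have a1 := hp.2
        have a2 := hp'.2
        rw [e] at a1
        linarith
      have e2 := mul_left_cancel₀ hi0 e1
      exact Prod.ext (by exact_mod_cast e2) e
    rw [hinj]
    apply card_class M _ hq
    · intro b hb
      obtain ⟨p, hp, rfl⟩ := mem_image.1 hb
      exact (mem_product.1 (mem_filter.1 hp).1).2
    · intro b hb b' hb'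
      obtain ⟨p, hp, rfl⟩ := mem_image.1 hb
      obtain ⟨p', hp', rfl⟩ := mem_image.1 hb'
      have a1 := (mem_filter.1 hp).2
      have a2 := (mem_filter.1 hp').2
      have a3 : (g : ℤ) * (j' * ((p.2 : ℤ) - p'.2)) = (g : ℤ) * (i' * ((p.1 : ℤ) - p'.1)) := by
        rw [hi', hj'] at a1 a2
        linear_combination a2 - a1
      have a4 := mul_left_cancel₀ hgz a3
      have a5 : i' ∣ j' * ((p.2 : ℤ) - p'.2) := ⟨_, a4⟩
      have a6 := hcop.dvd_of_dvd_mul_left a5
      exact Int.natAbs_dvd.2 a6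
  · -- use `a`, modulo `|j'|`
    rw [max_eq_right hle]
    have hj0 : j ≠ 0 := by
      rintro h0
      rw [h0] at hle
      simp at hle
      rcases hij with h | h
      · exact h hle
      · exact h h0
    have hj'0 : j' ≠ 0 := by
      rintro h0
      rw [h0, mul_zero] at hj'
      exact hj0 hj'
    have hq : 1 ≤ j'.natAbs := Int.natAbs_pos.2 hj'0
    rw [← conv j'.natAbs j.natAbs hq (by rw [hj', Int.natAbs_mul, Int.natAbs_natCast])]
    apply key _ hq
    set F := (Icc 1 M ×ˢ Icc 1 M).filter (fun p : ℕ × ℕ => i * p.1 - j * p.2 = T) with hF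
    have hinj : F.card = (F.image Prod.fst).card := by
      rw [card_image_of_injOn]
      intro p hp p' hp' h
      rw [hF, coe_filter, Set.mem_setOf_eq] at hp hp'
      have e : p.1 = p'.1 := h
      have e1 : j * (p.2 : ℤ) = j * (p'.2 : ℤ) := by
        have a1 := hp.2
        have a2 := hp'.2
        rw [e] at a1
        linarith
      have e2 := mul_left_cancel₀ hj0 e1
      exact Prod.ext e (by exact_mod_cast e2)
    rw [hinj]
    apply card_class M _ hq
    · intro b hb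
      obtain ⟨p, hp, rfl⟩ := mem_image.1 hb
      exact (mem_product.1 (mem_filter.1 hp).1).1
    · intro b hb b' hb'
      obtain ⟨p, hp, rfl⟩ := mem_image.1 hb
      obtain ⟨p', hp', rfl⟩ := mem_image.1 hb'
      have a1 := (mem_filter.1 hp).2
      have a2 := (mem_filter.1 hp').2
      have a3 : (g : ℤ) * (i' * ((p.1 : ℤ) - p'.1)) = (g : ℤ) * (j' * ((p.2 : ℤ) - p'.2)) := by
        rw [hi', hj'] at a1 a2
        linear_combination a1 - a2
      have a4 := mul_left_cancel₀ hgz a3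
      have a5 : j' ∣ i' * ((p.1 : ℤ) - p'.1) := ⟨_, a4⟩
      have a6 := hcop.symm.dvd_of_dvd_mul_left a5
      exact Int.natAbs_dvd.2 a6

/-- the solutions of `t ≤ i a - j b ≤ t + L` -/
lemma card_strip (M : ℕ) (i j : ℤ) (hij : i ≠ 0 ∨ j ≠ 0) (t L : ℝ) (hL : 0 ≤ L) :
    (((Icc 1 M ×ˢ Icc 1 M).filter (fun p : ℕ × ℕ =>
      t ≤ (i : ℝ) * p.1 - j * p.2 ∧ (i : ℝ) * p.1 - j * p.2 ≤ t + L)).card : ℝ) ≤
      (L + 1) * (M * (Int.gcd i j : ℝ) / (max i.natAbs j.natAbs : ℕ) + 1) := by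
  set F := (Icc 1 M ×ˢ Icc 1 M).filter (fun p : ℕ × ℕ =>
      t ≤ (i : ℝ) * p.1 - j * p.2 ∧ (i : ℝ) * p.1 - j * p.2 ≤ t + L) with hF
  set R : ℝ := M * (Int.gcd i j : ℝ) / (max i.natAbs j.natAbs : ℕ) + 1 with hR
  have hR0 : 0 ≤ R := by positivity
  have h1 : F.card = ∑ T ∈ Icc ⌈t⌉ ⌊t + L⌋, (F.filter (fun p => i * p.1 - j * p.2 = T)).card := by
    apply card_eq_sum_card_fiberwise
    intro p hp
    rw [hF, coe_filter, Set.mem_setOf_eq] at hp
    rw [coe_Icc, Set.mem_Icc, Int.ceil_le, Int.le_floor]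
    push_cast
    exact hp.2
  have h2 : ∀ T ∈ Icc ⌈t⌉ ⌊t + L⌋,
      ((F.filter (fun p => i * p.1 - j * p.2 = T)).card : ℝ) ≤ R := by
    intro T _
    refine le_trans ?_ (card_line M i j T hij)
    exact_mod_cast card_le_card (by
      intro p hp
      rw [mem_filter] at hp ⊢
      exact ⟨(mem_filter.1 hp.1).1, hp.2⟩)
  have h3 : ((Icc ⌈t⌉ ⌊t + L⌋).card : ℝ) ≤ L + 1 := by
    rw [Int.card_Icc]
    have e1 : ((⌊t + L⌋ + 1 - ⌈t⌉ : ℤ) : ℝ) ≤ L + 1 := by
      push_cast
      have := Int.floor_le (t + L)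
      have := Int.le_ceil t
      linarith
    rcases le_total 0 (⌊t + L⌋ + 1 - ⌈t⌉) with h | h
    · have : (((⌊t + L⌋ + 1 - ⌈t⌉).toNat : ℕ) : ℤ) = ⌊t + L⌋ + 1 - ⌈t⌉ := Int.toNat_of_nonneg h
      have e2 : (((⌊t + L⌋ + 1 - ⌈t⌉).toNat : ℕ) : ℝ) = ((⌊t + L⌋ + 1 - ⌈t⌉ : ℤ) : ℝ) := by
        exact_mod_cast this
      rw [e2]
      exact e1
    · rw [Int.toNat_of_nonpos h]
      push_cast
      linarith
  rw [h1]
  push_cast
  calc ∑ T ∈ Icc ⌈t⌉ ⌊t + L⌋, ((F.filter (fun p => i * p.1 - j * p.2 = T)).card : ℝ)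
      ≤ ∑ _T ∈ Icc ⌈t⌉ ⌊t + L⌋, R := sum_le_sum h2
    _ = ((Icc ⌈t⌉ ⌊t + L⌋).card : ℝ) * R := by rw [sum_const, nsmul_eq_mul]
    _ ≤ (L + 1) * R := mul_le_mul_of_nonneg_right h3 hR0

end Pool.Agent.W99.QE
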