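import Mathlib
import Pool.Agent.W99.QE1

set_option autoImplicit false

/-! # The additive energy of real quadratic sequences (helper99) -/

namespace Pool.Agent.W99.QE

open Finset

lemma gcd_sum (u : ℕ) (hu : 1 ≤ u) :
    ∑ v ∈ range (u + 1), (Nat.gcd u v : ℝ) ≤ 2 * u * (u.divisors.card : ℝ) := by
  have h1 : ∀ v ∈ range (u + 1), (Nat.gcd u v : ℝ) ≤
      ∑ g ∈ u.divisors, if g ∣ v then (g : ℝ) else 0 := by
    intro v _
    have hmem : Nat.gcd u v ∈ u.divisors := Nat.mem_divisors.2 ⟨Nat.gcd_dvd_left _ _, by omega⟩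
    have := single_le_sum (f := fun g : ℕ => if g ∣ v then (g : ℝ) else 0)
      (fun g _ => by split_ifs <;> positivity) hmem
    simpa [Nat.gcd_dvd_right] using this
  refine (sum_le_sum h1).trans ?_
  rw [sum_comm]
  have h2 : ∀ g ∈ u.divisors, ∑ v ∈ range (u + 1), (if g ∣ v then (g : ℝ) else 0) ≤ 2 * u := by
    intro g hg
    have hgd := (Nat.mem_divisors.1 hg).1
    have hg0 : 0 < g := Nat.pos_of_mem_divisors hg
    have hgr : (0 : ℝ) < g := by exact_mod_cast hg0
    rw [← sum_filter, sum_const, nsmul_eq_mul]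
    have h3 : (range (u + 1)).filter (fun v => g ∣ v) ⊆
        insert 0 ((Ioc 0 u).filter (fun v => g ∣ v)) := by
      intro v hv
      rw [mem_filter, mem_range] at hv
      rw [mem_insert, mem_filter, mem_Ioc]
      rcases Nat.eq_zero_or_pos v with h | h
      · exact Or.inl h
      · exact Or.inr ⟨⟨h, by omega⟩, hv.2⟩
    have h4 : ((range (u + 1)).filter (fun v => g ∣ v)).card ≤ u / g + 1 := by
      refine (card_le_card h3).trans ((card_insert_le _ _).trans ?_)
      rw [Nat.Ioc_filter_dvd_card_eq_div]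
    have h5 : (((range (u + 1)).filter (fun v => g ∣ v)).card : ℝ) ≤ u / g + 1 := by
      have : (((range (u + 1)).filter (fun v => g ∣ v)).card : ℝ) ≤ ((u / g + 1 : ℕ) : ℝ) := by
        exact_mod_cast h4
      refine this.trans ?_
      push_cast
      have h6 : ((u / g : ℕ) : ℝ) ≤ (u : ℝ) / g := Nat.cast_div_le
      have h7 : ((u / g : ℕ) : ℝ) = (u : ℝ) / g := by
        rw [Nat.cast_div hgd hgr.ne']
      linarith
    have h8 : (g : ℝ) ≤ u := by exact_mod_cast Nat.le_of_dvd (by omega) hgd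
    calc (((range (u + 1)).filter (fun v => g ∣ v)).card : ℝ) * g ≤ (u / g + 1) * g :=
          mul_le_mul_of_nonneg_right h5 hgr.le
      _ = u + g := by field_simp
      _ ≤ 2 * u := by linarith
  calc ∑ g ∈ u.divisors, ∑ v ∈ range (u + 1), (if g ∣ v then (g : ℝ) else 0)
      ≤ ∑ _g ∈ u.divisors, (2 * u : ℝ) := sum_le_sum h2
    _ = 2 * u * (u.divisors.card : ℝ) := by rw [sum_const, nsmul_eq_mul]; ring

lemma tau_sum (M : ℕ) (hM : 1 ≤ M) :
    ∑ u ∈ Icc 1 M, (u.divisors.card : ℝ) ≤ M * (1 + Real.log M) := by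
  have h1 : ∀ u ∈ Icc 1 M, (u.divisors.card : ℝ) = ∑ d ∈ Icc 1 M, if d ∣ u then (1 : ℝ) else 0 := by
    intro u hu
    rw [mem_Icc] at hu
    rw [← sum_filter, sum_const, nsmul_eq_mul, mul_one]
    congr 2
    ext d
    rw [Nat.mem_divisors, mem_filter, mem_Icc]
    constructor
    · rintro ⟨h, h0⟩
      exact ⟨⟨Nat.pos_of_dvd_of_pos h hu.1, (Nat.le_of_dvd hu.1 h).trans hu.2⟩, h⟩
    · rintro ⟨_, h⟩
      exact ⟨h, by omega⟩
  rw [sum_congr rfl h1, sum_comm]
  have h2 : ∀ d ∈ Icc 1 M, ∑ u ∈ Icc 1 M, (if d ∣ u then (1 : ℝ) else 0) ≤ M * (1 / (d : ℝ)) := by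
    intro d hd
    rw [← sum_filter, sum_const, nsmul_eq_mul, mul_one]
    have e : Icc 1 M = Ioc 0 M := by
      ext v
      simp only [mem_Icc, mem_Ioc]
      omega
    rw [e, Nat.Ioc_filter_dvd_card_eq_div]
    have : ((M / d : ℕ) : ℝ) ≤ (M : ℝ) / d := Nat.cast_div_le
    calc ((M / d : ℕ) : ℝ) ≤ (M : ℝ) / d := this
      _ = M * (1 / (d : ℝ)) := by ring
  refine (sum_le_sum h2).trans ?_
  rw [← mul_sum]
  apply mul_le_mul_of_nonneg_left _ (Nat.cast_nonneg _)
  have h3 := harmonic_le_one_add_log M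
  rw [harmonic_eq_sum_Icc] at h3
  push_cast at h3
  simpa [one_div] using h3

lemma sum_abs_le (M : ℕ) (f : ℕ → ℝ) (hf : ∀ u, 0 ≤ f u) :
    ∑ i ∈ Icc (-(M : ℤ)) M, f i.natAbs ≤ 2 * ∑ u ∈ range (M + 1), f u := by
  classical
  have hsub : Icc (-(M : ℤ)) M ⊆ (range (M + 1)).image (fun u : ℕ => (u : ℤ)) ∪
      (range (M + 1)).image (fun u : ℕ => -(u : ℤ)) := by
    intro i hi
    rw [mem_Icc] at hi
    rw [mem_union, mem_image, mem_image]
    rcases le_total 0 i with h | h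
    · left
      exact ⟨i.natAbs, by rw [mem_range]; omega, by omega⟩
    · right
      exact ⟨i.natAbs, by rw [mem_range]; omega, by omega⟩
  have h1 := sum_le_sum_of_subset_of_nonneg (f := fun i : ℤ => f i.natAbs) hsub
    (fun i _ _ => hf _)
  have h2 := sum_union_inter (s₁ := (range (M + 1)).image (fun u : ℕ => (u : ℤ)))
    (s₂ := (range (M + 1)).image (fun u : ℕ => -(u : ℤ))) (f := fun i : ℤ => f i.natAbs)
  have h3 : 0 ≤ ∑ i ∈ (range (M + 1)).image (fun u : ℕ => (u : ℤ)) ∩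
    (range (M + 1)).image (fun u : ℕ => -(u : ℤ)), f i.natAbs := sum_nonneg fun i _ => hf _
  have h4 : ∑ i ∈ (range (M + 1)).image (fun u : ℕ => (u : ℤ)), f i.natAbs =
      ∑ u ∈ range (M + 1), f u := by
    rw [sum_image]
    · simp
    · intro a _ b _ h
      have h' : (a : ℤ) = b := h
      exact_mod_cast h'
  have h5 : ∑ i ∈ (range (M + 1)).image (fun u : ℕ => -(u : ℤ)), f i.natAbs =
      ∑ u ∈ range (M + 1), f u := by
    rw [sum_image]
    · simp
    · intro a _ b _ h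
      have : (a : ℤ) = b := neg_injective h
      exact_mod_cast this
  linarith

lemma gcd_total (M : ℕ) (hM : 1 ≤ M) :
    ∑ i ∈ Icc (-(M : ℤ)) M, ∑ j ∈ Icc (-(M : ℤ)) M,
      ((Int.gcd i j : ℝ) / (max i.natAbs j.natAbs : ℕ)) ≤ 16 * M * (1 + Real.log M) := by
  set F : ℕ → ℕ → ℝ := fun u v => (Nat.gcd u v : ℝ) / (max u v : ℕ) with hF
  have hF0 : ∀ u v, 0 ≤ F u v := fun u v => by positivity
  have h1 : ∑ i ∈ Icc (-(M : ℤ)) M, ∑ j ∈ Icc (-(M : ℤ)) M,
      ((Int.gcd i j : ℝ) / (max i.natAbs j.natAbs : ℕ)) ≤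
      2 * ∑ u ∈ range (M + 1), (2 * ∑ v ∈ range (M + 1), F u v) := by
    have a1 : ∀ i ∈ Icc (-(M : ℤ)) M, ∑ j ∈ Icc (-(M : ℤ)) M,
        ((Int.gcd i j : ℝ) / (max i.natAbs j.natAbs : ℕ)) ≤
        2 * ∑ v ∈ range (M + 1), F i.natAbs v := by
      intro i _
      exact sum_abs_le M (fun v => F i.natAbs v) (fun v => hF0 _ _)
    refine (sum_le_sum a1).trans ?_
    exact sum_abs_le M (fun u => 2 * ∑ v ∈ range (M + 1), F u v)
      (fun u => mul_nonneg zero_le_two (sum_nonneg fun v _ => hF0 _ _))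
  refine h1.trans ?_
  rw [← mul_sum]
  -- split according to the order
  have h2 : ∑ u ∈ range (M + 1), ∑ v ∈ range (M + 1), F u v ≤
      2 * ∑ u ∈ range (M + 1), ∑ v ∈ range (u + 1), F u v := by
    have b1 : ∀ u ∈ range (M + 1), ∀ v ∈ range (M + 1), F u v ≤
        (if v ≤ u then F u v else 0) + (if u ≤ v then F u v else 0) := by
      intro u _ v _
      rcases le_total v u with h | h
      · rw [if_pos h]
        have : 0 ≤ (if u ≤ v then F u v else 0) := by split_ifs <;> simp [hF0]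
        linarith
      · rw [if_pos h]
        have : 0 ≤ (if v ≤ u then F u v else 0) := by split_ifs <;> simp [hF0]
        linarith
    have b2 : ∑ u ∈ range (M + 1), ∑ v ∈ range (M + 1), (if v ≤ u then F u v else 0) =
        ∑ u ∈ range (M + 1), ∑ v ∈ range (u + 1), F u v := by
      apply sum_congr rfl
      intro u hu
      rw [mem_range] at hu
      rw [← sum_filter]
      apply sum_congr _ (fun _ _ => rfl)
      ext v
      rw [mem_filter, mem_range, mem_range]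
      omega
    have b3 : ∑ u ∈ range (M + 1), ∑ v ∈ range (M + 1), (if u ≤ v then F u v else 0) =
        ∑ u ∈ range (M + 1), ∑ v ∈ range (u + 1), F u v := by
      rw [sum_comm, ← b2]
      apply sum_congr rfl
      intro v _
      apply sum_congr rfl
      intro u _
      have : F u v = F v u := by
        simp only [hF]
        rw [Nat.gcd_comm, max_comm]
      rw [this]
    calc ∑ u ∈ range (M + 1), ∑ v ∈ range (M + 1), F u v
        ≤ ∑ u ∈ range (M + 1), ∑ v ∈ range (M + 1),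
          ((if v ≤ u then F u v else 0) + (if u ≤ v then F u v else 0)) :=
          sum_le_sum fun u hu => sum_le_sum (b1 u hu)
      _ = _ := by
          simp only [sum_add_distrib]
          rw [b2, b3]
          ring
  have h3 : ∑ u ∈ range (M + 1), ∑ v ∈ range (u + 1), F u v ≤
      2 * (M * (1 + Real.log M)) := by
    have c1 : ∑ u ∈ range (M + 1), ∑ v ∈ range (u + 1), F u v =
        ∑ u ∈ Icc 1 M, ∑ v ∈ range (u + 1), F u v := by
      symm
      apply sum_subset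
      · intro u hu
        rw [mem_Icc] at hu
        rw [mem_range]
        omega
      · intro u hu hu'
        rw [mem_range] at hu
        rw [mem_Icc] at hu'
        have : u = 0 := by omega
        subst this
        simp [hF]
    rw [c1]
    have c2 : ∀ u ∈ Icc 1 M, ∑ v ∈ range (u + 1), F u v ≤ 2 * (u.divisors.card : ℝ) := by
      intro u hu
      rw [mem_Icc] at hu
      have hu0 : (0 : ℝ) < u := by exact_mod_cast hu.1
      have d1 : ∑ v ∈ range (u + 1), F u v = (∑ v ∈ range (u + 1), (Nat.gcd u v : ℝ)) / u := by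
        rw [sum_div]
        apply sum_congr rfl
        intro v hv
        rw [mem_range] at hv
        simp only [hF]
        rw [max_eq_left (by omega : v ≤ u)]
      rw [d1, div_le_iff₀ hu0]
      linarith [gcd_sum u hu.1]
    refine (sum_le_sum c2).trans ?_
    rw [← mul_sum]
    exact mul_le_mul_of_nonneg_left (tau_sum M hM) zero_le_two
  have h4 : 0 ≤ ∑ u ∈ range (M + 1), ∑ v ∈ range (M + 1), F u v :=
    sum_nonneg fun u _ => sum_nonneg fun v _ => hF0 _ _
  nlinarith [h2, h3, h4]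

open Classical in
/-- the number of quadruples -/
theorem quad_count (M : ℕ) (hM : 1 ≤ M) (α β γ D : ℝ) (hα : 0 < α) (hD : 0 ≤ D) :
    (((Icc 1 M ×ˢ Icc 1 M) ×ˢ (Icc 1 M ×ˢ Icc 1 M)).filter
      (fun q : (ℕ × ℕ) × (ℕ × ℕ) =>
        |(α * (q.1.1 : ℝ) ^ 2 + β * q.1.1 + γ) + (α * (q.1.2 : ℝ) ^ 2 + β * q.1.2 + γ)
          - (α * (q.2.1 : ℝ) ^ 2 + β * q.2.1 + γ) - (α * (q.2.2 : ℝ) ^ 2 + β * q.2.2 + γ)| ≤ D)).card
      ≤ (M : ℝ) ^ 2 + (D / α + 1) * (16 * (M : ℝ) ^ 2 * (1 + Real.log M) + (2 * (M : ℝ) + 1) ^ 2) := by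
  set Q := ((Icc 1 M ×ˢ Icc 1 M) ×ˢ (Icc 1 M ×ˢ Icc 1 M)).filter
      (fun q : (ℕ × ℕ) × (ℕ × ℕ) =>
        |(α * (q.1.1 : ℝ) ^ 2 + β * q.1.1 + γ) + (α * (q.1.2 : ℝ) ^ 2 + β * q.1.2 + γ)
          - (α * (q.2.1 : ℝ) ^ 2 + β * q.2.1 + γ) - (α * (q.2.2 : ℝ) ^ 2 + β * q.2.2 + γ)| ≤ D) with hQ
  set box := Icc (-(M : ℤ)) M ×ˢ Icc (-(M : ℤ)) M with hbox
  set dif : (ℕ × ℕ) × (ℕ × ℕ) → ℤ × ℤ := fun q => ((q.1.1 : ℤ) - q.2.1, (q.2.2 : ℤ) - q.1.2) with hdif
  have hmem : ∀ q ∈ Q, (1 ≤ q.1.1 ∧ q.1.1 ≤ M) ∧ (1 ≤ q.1.2 ∧ q.1.2 ≤ M) ∧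
      (1 ≤ q.2.1 ∧ q.2.1 ≤ M) ∧ (1 ≤ q.2.2 ∧ q.2.2 ≤ M) := by
    intro q hq
    have := (mem_filter.1 hq).1
    simp only [mem_product, mem_Icc] at this
    exact ⟨this.1.1, this.1.2, this.2.1, this.2.2⟩
  have h1 : Q.card = ∑ ij ∈ box, (Q.filter (fun q => dif q = ij)).card := by
    apply card_eq_sum_card_fiberwise
    intro q hq
    have := hmem q (by exact_mod_cast hq)
    simp only [hbox, hdif, coe_product, coe_Icc, Set.mem_prod, Set.mem_Icc]
    omega
  have hR0 : 0 ≤ D / α + 1 := by positivity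
  have h2 : ∀ ij ∈ box, ((Q.filter (fun q => dif q = ij)).card : ℝ) ≤
      (if ij = (0, 0) then (M : ℝ) ^ 2 else 0) +
      (D / α + 1) * (M * ((Int.gcd ij.1 ij.2 : ℝ) / (max ij.1.natAbs ij.2.natAbs : ℕ)) + 1) := by
    rintro ⟨i, j⟩ _
    set G := Q.filter (fun q => dif q = (i, j)) with hG
    have hGd : ∀ q ∈ G, (q.1.1 : ℤ) - q.2.1 = i ∧ (q.2.2 : ℤ) - q.1.2 = j := by
      intro q hq
      have := (mem_filter.1 hq).2
      simp only [hdif, Prod.mk.injEq] at this
      exact this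
    have hinj : G.card = (G.image Prod.fst).card := by
      rw [card_image_of_injOn]
      intro q hq q' hq' h
      have e : q.1 = q'.1 := h
      obtain ⟨a1, a2⟩ := hGd q (by exact_mod_cast hq)
      obtain ⟨b1, b2⟩ := hGd q' (by exact_mod_cast hq')
      rw [e] at a1 a2
      have e2 : q.2 = q'.2 := by
        apply Prod.ext
        · have : (q.2.1 : ℤ) = q'.2.1 := by linarith
          exact_mod_cast this
        · have : (q.2.2 : ℤ) = q'.2.2 := by linarith
          exact_mod_cast this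
      exact Prod.ext e e2
    have hrest : 0 ≤ (D / α + 1) *
        (M * ((Int.gcd i j : ℝ) / (max i.natAbs j.natAbs : ℕ)) + 1) := by positivity
    by_cases h0 : (i, j) = ((0 : ℤ), (0 : ℤ))
    · rw [if_pos h0]
      have : (G.image Prod.fst).card ≤ (Icc 1 M ×ˢ Icc 1 M).card := by
        apply card_le_card
        intro p hp
        obtain ⟨q, hq, rfl⟩ := mem_image.1 hp
        exact (mem_product.1 (mem_filter.1 (mem_filter.1 hq).1).1).1
      rw [hinj]
      have h3 : ((G.image Prod.fst).card : ℝ) ≤ (M : ℝ) ^ 2 := by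
        have h4 : ((G.image Prod.fst).card : ℝ) ≤ ((Icc 1 M ×ˢ Icc 1 M).card : ℝ) := by
          exact_mod_cast this
        have h5 : (Icc 1 M).card = M := by simp
        rw [card_product, h5] at h4
        push_cast at h4
        nlinarith [h4]
      linarith
    · rw [if_neg h0, zero_add]
      have hij : i ≠ 0 ∨ j ≠ 0 := by
        by_contra hcon
        push Not at hcon
        exact h0 (by rw [hcon.1, hcon.2])
      have hs := card_strip M i j hij ((α * ((i : ℝ) ^ 2 + (j : ℝ) ^ 2) - β * (i - j) - D) / (2 * α))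
        (D / α) (by positivity)
      rw [hinj]
      have e3 : M * (Int.gcd i j : ℝ) / (max i.natAbs j.natAbs : ℕ) =
          M * ((Int.gcd i j : ℝ) / (max i.natAbs j.natAbs : ℕ)) := by ring
      rw [e3] at hs
      refine le_trans ?_ hs
      have : (G.image Prod.fst) ⊆ (Icc 1 M ×ˢ Icc 1 M).filter (fun p : ℕ × ℕ =>
          (α * ((i : ℝ) ^ 2 + (j : ℝ) ^ 2) - β * (i - j) - D) / (2 * α) ≤ (i : ℝ) * p.1 - j * p.2 ∧
          (i : ℝ) * p.1 - j * p.2 ≤
            (α * ((i : ℝ) ^ 2 + (j : ℝ) ^ 2) - β * (i - j) - D) / (2 * α) + D / α) := by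
        intro p hp
        obtain ⟨q, hq, rfl⟩ := mem_image.1 hp
        have hqQ := (mem_filter.1 hq).1
        obtain ⟨a1, a2⟩ := hGd q hq
        have a1' : (q.2.1 : ℝ) = q.1.1 - i := by
          have : (q.2.1 : ℤ) = q.1.1 - i := by linarith
          exact_mod_cast this
        have a2' : (q.2.2 : ℝ) = q.1.2 + j := by
          have : (q.2.2 : ℤ) = q.1.2 + j := by linarith
          exact_mod_cast this
        have hc := (mem_filter.1 hqQ).2
        rw [a1', a2', abs_le] at hc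
        rw [mem_filter]
        refine ⟨(mem_product.1 (mem_filter.1 hqQ).1).1, ?_, ?_⟩
        · rw [div_le_iff₀ (by positivity)]
          nlinarith [hc.1, hc.2]
        · have e4 : (α * ((i : ℝ) ^ 2 + (j : ℝ) ^ 2) - β * (i - j) - D) / (2 * α) + D / α =
              (α * ((i : ℝ) ^ 2 + (j : ℝ) ^ 2) - β * (i - j) + D) / (2 * α) := by
            field_simp
            ring
          rw [e4, le_div_iff₀ (by positivity)]
          nlinarith [hc.1, hc.2]
      exact_mod_cast card_le_card this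
  have h3 : (Q.card : ℝ) ≤ ∑ ij ∈ box, ((if ij = (0, 0) then (M : ℝ) ^ 2 else 0) +
      (D / α + 1) * (M * ((Int.gcd ij.1 ij.2 : ℝ) / (max ij.1.natAbs ij.2.natAbs : ℕ)) + 1)) := by
    rw [h1, Nat.cast_sum]
    exact sum_le_sum h2
  refine h3.trans ?_
  rw [sum_add_distrib, ← mul_sum, sum_add_distrib, ← mul_sum]
  have e5 : ∑ ij ∈ box, (if ij = (0, 0) then (M : ℝ) ^ 2 else 0) ≤ (M : ℝ) ^ 2 := by
    rw [sum_ite_eq' box ((0 : ℤ), (0 : ℤ))]
    split_ifs
    · exact le_rfl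
    · positivity
  have e6 : ∑ ij ∈ box, ((Int.gcd ij.1 ij.2 : ℝ) / (max ij.1.natAbs ij.2.natAbs : ℕ)) ≤
      16 * M * (1 + Real.log M) := by
    rw [hbox, sum_product]
    exact gcd_total M hM
  have e7 : ∑ _ij ∈ box, (1 : ℝ) = (2 * (M : ℝ) + 1) ^ 2 := by
    rw [sum_const, nsmul_eq_mul, mul_one, hbox, card_product, Int.card_Icc]
    have : ((M : ℤ) + 1 - (-(M : ℤ))).toNat = 2 * M + 1 := by omega
    rw [this]
    push_cast
    ring
  have hM0 : (0 : ℝ) ≤ M := Nat.cast_nonneg _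
  rw [e7]
  have e8 : (M : ℝ) * ∑ ij ∈ box, ((Int.gcd ij.1 ij.2 : ℝ) / (max ij.1.natAbs ij.2.natAbs : ℕ)) ≤
      16 * (M : ℝ) ^ 2 * (1 + Real.log M) := by
    calc _ ≤ (M : ℝ) * (16 * M * (1 + Real.log M)) := mul_le_mul_of_nonneg_left e6 hM0
      _ = _ := by ring
  have e9 := mul_le_mul_of_nonneg_left (add_le_add_left e8 ((2 * (M : ℝ) + 1) ^ 2)) hR0
  linarith

end Pool.Agent.W99.QE
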