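import Mathlib
import Pool.Agent.W99.QE2
import Pool.Agent.W93.GB4

set_option autoImplicit false

/-! # Goldbach's problem in windows around real quadratic polynomials (helper99) -/

namespace Pool.Agent.W99.QE

open Finset Pool.Agent.H560R3.GB Pool.Agent.W93.GB

/-- the order of magnitude in the question -/
noncomputable def OM (n : ℕ) : ℝ := (n : ℝ) ^ 2 / (Nat.totient n * Real.log n ^ 2)

lemma pf_even (n : ℕ) (hn : Even n) (h0 : n ≠ 0) :
    n.primeFactors = insert 2 (n.primeFactors.filter (fun p => 2 < p)) := by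
  ext p
  rw [mem_insert, mem_filter]
  constructor
  · intro hp
    have := (Nat.prime_of_mem_primeFactors hp).two_le
    rcases Nat.lt_or_ge 2 p with h | h
    · exact Or.inr ⟨hp, h⟩
    · exact Or.inl (by omega)
  · rintro (h | h)
    · rw [h]
      exact Nat.mem_primeFactors.2 ⟨Nat.prime_two, hn.two_dvd, h0⟩
    · exact h.1

lemma ratio_eq (n : ℕ) (hn : Even n) (h0 : n ≠ 0) :
    (n : ℝ) / Nat.totient n = 2 * ∏ p ∈ n.primeFactors.filter (fun p => 2 < p),
      ((p : ℝ) / ((p : ℝ) - 1)) := by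
  have h1 : (Nat.totient n : ℝ) = n * ∏ p ∈ n.primeFactors, (1 - (p : ℝ)⁻¹) := by
    have := Nat.totient_eq_mul_prod_factors n
    have h2 : ((Nat.totient n : ℚ) : ℝ) = ((n * ∏ p ∈ n.primeFactors, (1 - (p : ℚ)⁻¹) : ℚ) : ℝ) := by
      rw [this]
    push_cast at h2
    exact h2
  have hn0 : (n : ℝ) ≠ 0 := by exact_mod_cast h0
  have hni : (2 : ℕ) ∉ n.primeFactors.filter (fun p => 2 < p) := by
    rw [mem_filter]
    rintro ⟨_, h⟩
    exact absurd h (lt_irrefl 2)
  rw [h1, pf_even n hn h0, prod_insert hni]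
  have hfe : (insert 2 (n.primeFactors.filter (fun p => 2 < p))).filter (fun p => 2 < p) =
      n.primeFactors.filter (fun p => 2 < p) := by
    ext p
    simp only [mem_filter, mem_insert]
    constructor
    · rintro ⟨h | h, h2⟩
      · omega
      · exact h
    · intro h
      exact ⟨Or.inr h, h.2⟩
  rw [hfe]
  have h3 : ∏ p ∈ n.primeFactors.filter (fun p => 2 < p), ((p : ℝ) / ((p : ℝ) - 1)) =
      (∏ p ∈ n.primeFactors.filter (fun p => 2 < p), (1 - (p : ℝ)⁻¹))⁻¹ := by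
    rw [← prod_inv_distrib]
    apply prod_congr rfl
    intro p hp
    have hp2 : (2 : ℝ) < p := by exact_mod_cast (mem_filter.1 hp).2
    have e1 : (p : ℝ) ≠ 0 := by linarith
    have e2 : (p : ℝ) - 1 ≠ 0 := by linarith
    have e3 : 1 - (p : ℝ)⁻¹ = ((p : ℝ) - 1) / p := by field_simp
    rw [e3, inv_div]
  rw [h3]
  have h4 : ∏ p ∈ n.primeFactors.filter (fun p => 2 < p), (1 - (p : ℝ)⁻¹) ≠ 0 := by
    rw [prod_ne_zero_iff]
    intro p hp
    have hp2 : (2 : ℝ) < p := by exact_mod_cast (mem_filter.1 hp).2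
    have : (p : ℝ)⁻¹ < 1 := inv_lt_one_of_one_lt₀ (by linarith)
    linarith
  push_cast
  field_simp
  norm_num

/-- comparison of the Hardy-Littlewood prediction with the order of magnitude -/
lemma HL_bounds (n : ℕ) (hn : Even n) (h0 : n ≠ 0) : C₂ * OM n ≤ HL n ∧ HL n ≤ OM n := by
  set P := n.primeFactors.filter (fun p => 2 < p) with hP
  have hP2 : ∀ p ∈ P, (3 : ℝ) ≤ p := by
    intro p hp
    have := (mem_filter.1 hp).2
    exact_mod_cast (by omega : 3 ≤ p)
  have hOM : OM n = (2 * ∏ p ∈ P, ((p : ℝ) / ((p : ℝ) - 1))) * (n / Real.log n ^ 2) := by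
    rw [← ratio_eq n hn h0]
    unfold OM
    rw [div_mul_div_comm, pow_two]
  have hHL : HL n = (2 * C₂ * ∏ p ∈ P, dv p) * (n / Real.log n ^ 2) := by
    unfold HL
    rw [sing_eq]
  have hq0 : 0 ≤ (n : ℝ) / Real.log n ^ 2 := by positivity
  have h1 : ∏ p ∈ P, ((p : ℝ) / ((p : ℝ) - 1)) ≤ ∏ p ∈ P, dv p := by
    apply prod_le_prod
    · intro p hp
      have := hP2 p hp
      exact div_nonneg (by linarith) (by linarith)
    · intro p hp
      have := hP2 p hp
      unfold dv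
      rw [div_le_div_iff₀ (by linarith) (by linarith)]
      nlinarith
  have h2 : C₂ ≤ ∏ p ∈ P, (1 - 1 / ((p : ℝ) - 1) ^ 2) := by
    refine (C2_le n).trans ?_
    unfold Pz
    have hsub : P ⊆ (Icc 3 n).filter Nat.Prime := by
      intro p hp
      rw [hP, mem_filter] at hp
      rw [mem_filter, mem_Icc]
      exact ⟨⟨hp.2, Nat.le_of_mem_primeFactors hp.1⟩, Nat.prime_of_mem_primeFactors hp.1⟩
    rw [← prod_sdiff hsub]
    have i1 : ∏ p ∈ (Icc 3 n).filter Nat.Prime \ P, (1 - 1 / ((p : ℝ) - 1) ^ 2) ≤ 1 := by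
      apply prod_le_one
      · intro p hp
        have := (mem_filter.1 (mem_sdiff.1 hp).1).1
        exact (fac_pos p (mem_Icc.1 this).1).le
      · intro p _
        exact fac_le p
    have i2 : 0 ≤ ∏ p ∈ P, (1 - 1 / ((p : ℝ) - 1) ^ 2) := by
      apply prod_nonneg
      intro p hp
      exact (fac_pos p (mem_filter.1 hp).2).le
    nlinarith
  have h3 : (∏ p ∈ P, (1 - 1 / ((p : ℝ) - 1) ^ 2)) * ∏ p ∈ P, dv p =
      ∏ p ∈ P, ((p : ℝ) / ((p : ℝ) - 1)) := by
    rw [← prod_mul_distrib]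
    apply prod_congr rfl
    intro p hp
    have := hP2 p hp
    unfold dv
    have e1 : (p : ℝ) - 1 ≠ 0 := by linarith
    have e2 : (p : ℝ) - 2 ≠ 0 := by linarith
    field_simp
    ring
  have hdv : 0 ≤ ∏ p ∈ P, dv p :=
    zero_le_one.trans (one_le_prod_dv P (fun p hp => (mem_filter.1 hp).2))
  have hC := C2_pos
  rw [hOM, hHL]
  constructor
  · rw [← mul_assoc]
    apply mul_le_mul_of_nonneg_right _ hq0
    nlinarith [mul_le_mul_of_nonneg_left h1 hC.le]
  · apply mul_le_mul_of_nonneg_right _ hq0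
    have := mul_le_mul_of_nonneg_right h2 hdv
    rw [h3] at this
    nlinarith

/-- the energy is at most the number of quadruples -/
lemma energy_two (M : ℕ) (s : ℕ → ℕ) : energy 2 M s ≤
    (((Icc 1 M ×ˢ Icc 1 M) ×ˢ (Icc 1 M ×ˢ Icc 1 M)).filter
      (fun q : (ℕ × ℕ) × (ℕ × ℕ) => s q.1.1 + s q.1.2 = s q.2.1 + s q.2.2)).card := by
  unfold energy
  apply card_le_card_of_injOn (fun q => ((q.1 0, q.1 1), (q.2 0, q.2 1)))
  · intro q hq
    rw [mem_coe, mem_filter, mem_product, Fintype.mem_piFinset, Fintype.mem_piFinset] at hq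
    rw [mem_coe, mem_filter]
    refine ⟨?_, ?_⟩
    · simp only [mem_product]
      exact ⟨⟨hq.1.1 0, hq.1.1 1⟩, ⟨hq.1.2 0, hq.1.2 1⟩⟩
    · have := hq.2
      rw [Fin.sum_univ_two, Fin.sum_univ_two] at this
      exact this
  · intro q _ q' _ h
    simp only [Prod.mk.injEq] at h
    obtain ⟨⟨h1, h2⟩, h3, h4⟩ := h
    apply Prod.ext
    · funext i
      fin_cases i
      · exact h1
      · exact h2
    · funext i
      fin_cases i
      · exact h3
      · exact h4

/-- the energy of a family close to a real quadratic polynomial -/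
theorem energy_near (M : ℕ) (hM : 1 ≤ M) (α β γ W : ℝ) (hα : α ≠ 0) (hW : 0 ≤ W) (s : ℕ → ℕ)
    (hs : ∀ m ∈ Icc 1 M, |(s m : ℝ) - (α * (m : ℝ) ^ 2 + β * m + γ)| ≤ W) :
    (energy 2 M s : ℝ) ≤ (M : ℝ) ^ 2 +
      (4 * W / |α| + 1) * (16 * (M : ℝ) ^ 2 * (1 + Real.log M) + (2 * (M : ℝ) + 1) ^ 2) := by
  classical
  rcases lt_or_gt_of_ne hα with h | h
  · rw [abs_of_neg h]
    refine le_trans ?_ (quad_count M hM (-α) (-β) (-γ) (4 * W) (by linarith) (by positivity))
    have h1 := energy_two M s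
    refine le_trans (Nat.cast_le.2 h1) (Nat.cast_le.2 (card_le_card ?_))
    intro q hq
    rw [mem_filter] at hq ⊢
    refine ⟨hq.1, ?_⟩
    have hm := hq.1
    simp only [mem_product] at hm
    have a1 := abs_le.1 (hs _ hm.1.1)
    have a2 := abs_le.1 (hs _ hm.1.2)
    have a3 := abs_le.1 (hs _ hm.2.1)
    have a4 := abs_le.1 (hs _ hm.2.2)
    have a5 : (s q.1.1 : ℝ) + s q.1.2 = s q.2.1 + s q.2.2 := by exact_mod_cast hq.2
    rw [abs_le]
    constructor <;> linarith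
  · rw [abs_of_pos h]
    refine le_trans ?_ (quad_count M hM α β γ (4 * W) h (by positivity))
    have h1 := energy_two M s
    refine le_trans (Nat.cast_le.2 h1) (Nat.cast_le.2 (card_le_card ?_))
    intro q hq
    rw [mem_filter] at hq ⊢
    refine ⟨hq.1, ?_⟩
    have hm := hq.1
    simp only [mem_product] at hm
    have a1 := abs_le.1 (hs _ hm.1.1)
    have a2 := abs_le.1 (hs _ hm.1.2)
    have a3 := abs_le.1 (hs _ hm.2.1)
    have a4 := abs_le.1 (hs _ hm.2.2)
    have a5 : (s q.1.1 : ℝ) + s q.1.2 = s q.2.1 + s q.2.2 := by exact_mod_cast hq.2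
    rw [abs_le]
    constructor <;> linarith

lemma ev_log (K : ℝ) : ∃ n0 : ℕ, ∀ n : ℕ, n0 ≤ n → K ≤ Real.log n := by
  have h := (Real.tendsto_log_atTop.comp tendsto_natCast_atTop_atTop).eventually_ge_atTop K
  exact Filter.eventually_atTop.1 h

/-- the main theorem -/
theorem main (A U : ℕ) (ε : ℝ) (hε : 0 < ε) : ∃ M₀ : ℕ, ∀ M : ℕ, M₀ ≤ M → ∀ α β γ : ℝ,
    1 ≤ |α| * Real.log M ^ A →
    (∀ m ∈ Icc 1 M, 0 ≤ α * (m : ℝ) ^ 2 + β * m + γ ∧
      α * (m : ℝ) ^ 2 + β * m + γ ≤ (M : ℝ) ^ 2 * Real.log M ^ A) →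
    ∀ S : Finset ℕ, S ⊆ Icc 1 M →
    (∀ m ∈ S, ∃ n : ℕ, Even n ∧ |(n : ℝ) - (α * (m : ℝ) ^ 2 + β * m + γ)| ≤ Real.log M ^ A ∧
      ¬ Good ε n) →
    (S.card : ℝ) ≤ M / Real.log M ^ U := by
  classical
  obtain ⟨N₀, h0⟩ := fam 2 2 (3 * A + 2) U (by norm_num) ε hε
  obtain ⟨n1, h1⟩ := ev_log 1068
  refine ⟨max (max N₀ n1) 1, fun M hM α β γ hα hF S hS hbad => ?_⟩
  have hM1 : 1 ≤ M := (le_max_right _ _).trans hM
  have hMN : N₀ ≤ M := (le_max_left _ _).trans ((le_max_left _ _).trans hM)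
  have hL := h1 M ((le_max_right _ _).trans ((le_max_left _ _).trans hM))
  set L := Real.log M with hLd
  have hL1 : 1 ≤ L := by linarith
  have hL0 : 0 < L := by linarith
  have hMr : (1 : ℝ) ≤ M := by exact_mod_cast hM1
  have hLA : 1 ≤ L ^ A := one_le_pow₀ hL1
  set F : ℕ → ℝ := fun m => α * (m : ℝ) ^ 2 + β * m + γ with hFd
  -- the family
  set s : ℕ → ℕ := fun m => if h : m ∈ S then (hbad m h).choose else 2 * ⌊F m / 2⌋₊ with hs
  have hsS : ∀ m (h : m ∈ S), s m = (hbad m h).choose := fun m h => by simp only [hs, dif_pos h]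
  have hsn : ∀ m, m ∉ S → s m = 2 * ⌊F m / 2⌋₊ := fun m h => by simp only [hs, dif_neg h]
  have hnear : ∀ m ∈ Icc 1 M, |(s m : ℝ) - F m| ≤ L ^ A + 2 := by
    intro m hm
    by_cases h : m ∈ S
    · rw [hsS m h]
      have := (hbad m h).choose_spec.2.1
      exact this.trans (by linarith)
    · rw [hsn m h]
      have hF0 := (hF m hm).1
      have e1 := Nat.floor_le (show 0 ≤ F m / 2 by
        have : 0 ≤ F m := hF0
        linarith)
      have e2 := Nat.lt_floor_add_one (F m / 2)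
      push_cast
      rw [abs_le]
      constructor <;> linarith
  have heven : ∀ m, 2 ∣ s m := by
    intro m
    by_cases h : m ∈ S
    · rw [hsS m h]
      exact (hbad m h).choose_spec.1.two_dvd
    · rw [hsn m h]
      exact Dvd.intro _ rfl
  set K := ⌈L ^ A⌉₊ with hK
  have hK1 : L ^ A ≤ K := Nat.le_ceil _
  have hK2 : (K : ℝ) ≤ 2 * L ^ A := by
    have := Nat.ceil_lt_add_one (show 0 ≤ L ^ A by positivity)
    linarith
  have hKpos : 1 ≤ K := by
    have : (1 : ℝ) ≤ K := hLA.trans hK1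
    exact_mod_cast this
  set N := M ^ 2 * K with hN
  have hMleN : M ≤ N := by
    rw [hN]
    nlinarith [Nat.mul_le_mul hM1 hKpos, Nat.mul_le_mul hM1 hM1]
  have hNr : (N : ℝ) = (M : ℝ) ^ 2 * K := by rw [hN]; push_cast; ring
  have hlogN : L ≤ Real.log N := Real.log_le_log (by linarith) (by exact_mod_cast hMleN)
  have hsize : ∀ m ∈ Icc 1 M, s m ≤ 2 * N ∧ 2 ∣ s m := by
    intro m hm
    refine ⟨?_, heven m⟩
    have e1 := abs_le.1 (hnear m hm)
    have e2 := (hF m hm).2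
    have e3 : F m ≤ N := by
      rw [hNr]
      refine e2.trans ?_
      exact mul_le_mul_of_nonneg_left hK1 (by positivity)
    have e4 : L ^ A + 2 ≤ N + 2 := by
      rw [hNr]
      have : (1 : ℝ) ≤ (M : ℝ) ^ 2 := one_le_pow₀ hMr
      nlinarith
    -- `L ^ A + 2 ≤ N`
    have e5 : L ^ A + 2 ≤ N := by
      rw [hNr]
      have h3 : (3 : ℝ) ≤ M := by
        by_contra hcon
        push Not at hcon
        have : L ≤ 3 := by
          rw [hLd]
          exact (Real.log_le_sub_one_of_pos (by linarith)).trans (by linarith)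
        linarith
      have h9 : (9 : ℝ) ≤ (M : ℝ) ^ 2 := by nlinarith
      nlinarith
    have : (s m : ℝ) ≤ ((2 * N : ℕ) : ℝ) := by
      push_cast
      linarith
    exact_mod_cast this
  have hα0 : α ≠ 0 := by
    rintro h
    rw [h, abs_zero, zero_mul] at hα
    linarith
  have hαpos : 0 < |α| := abs_pos.2 hα0
  have hE := energy_near M hM1 α β γ (L ^ A + 2) hα0 (by positivity) s hnear
  have hEN : (energy 2 M s : ℝ) * N ≤ Real.log N ^ (3 * A + 2) * (M : ℝ) ^ (2 * 2) := by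
    have b1 : 4 * (L ^ A + 2) / |α| + 1 ≤ 13 * (L ^ A * L ^ A) := by
      have c1 : 1 / |α| ≤ L ^ A := by
        rw [div_le_iff₀ hαpos]
        linarith
      have c2 : 4 * (L ^ A + 2) / |α| = 4 * (L ^ A + 2) * (1 / |α|) := by ring
      rw [c2]
      have c3 : 4 * (L ^ A + 2) * (1 / |α|) ≤ 4 * (L ^ A + 2) * L ^ A :=
        mul_le_mul_of_nonneg_left c1 (by positivity)
      nlinarith
    have b2 : 16 * (M : ℝ) ^ 2 * (1 + L) + (2 * (M : ℝ) + 1) ^ 2 ≤ 41 * (M : ℝ) ^ 2 * L := by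
      nlinarith [mul_nonneg (sq_nonneg (M : ℝ)) (by linarith : (0 : ℝ) ≤ L - 1)]
    have b3 : (energy 2 M s : ℝ) ≤ 534 * (M : ℝ) ^ 2 * (L ^ A * L ^ A * L) := by
      refine hE.trans ?_
      have c4 : (4 * (L ^ A + 2) / |α| + 1) *
          (16 * (M : ℝ) ^ 2 * (1 + L) + (2 * (M : ℝ) + 1) ^ 2) ≤
          13 * (L ^ A * L ^ A) * (41 * (M : ℝ) ^ 2 * L) :=
        mul_le_mul b1 b2 (by positivity) (by positivity)
      have c5 : (1 : ℝ) ≤ L ^ A * L ^ A * L := by
        nlinarith [mul_le_mul hLA hLA zero_le_one (by positivity : (0 : ℝ) ≤ L ^ A)]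
      have c6 : (0 : ℝ) ≤ (M : ℝ) ^ 2 := by positivity
      nlinarith [mul_le_mul_of_nonneg_left c5 c6]
    have b4 : (N : ℝ) ≤ 2 * (M : ℝ) ^ 2 * L ^ A := by
      rw [hNr]
      nlinarith [mul_le_mul_of_nonneg_left hK2 (by positivity : (0 : ℝ) ≤ (M : ℝ) ^ 2)]
    calc (energy 2 M s : ℝ) * N
        ≤ (534 * (M : ℝ) ^ 2 * (L ^ A * L ^ A * L)) * (2 * (M : ℝ) ^ 2 * L ^ A) :=
          mul_le_mul b3 b4 (Nat.cast_nonneg _) (by positivity)
      _ = 1068 * (L ^ A * L ^ A * L ^ A * L) * (M : ℝ) ^ 4 := by ring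
      _ ≤ L * (L ^ A * L ^ A * L ^ A * L) * (M : ℝ) ^ 4 := by
          apply mul_le_mul_of_nonneg_right _ (by positivity)
          exact mul_le_mul_of_nonneg_right hL (by positivity)
      _ = L ^ (3 * A + 2) * (M : ℝ) ^ (2 * 2) := by ring
      _ ≤ Real.log N ^ (3 * A + 2) * (M : ℝ) ^ (2 * 2) := by
          apply mul_le_mul_of_nonneg_right _ (by positivity)
          exact pow_le_pow_left₀ hL0.le hlogN _
  have hfin := h0 N (hMN.trans hMleN) M s hsize hEN S hS (by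
    intro m hm
    rw [hsS m hm]
    exact (hbad m hm).choose_spec.2.2)
  refine hfin.trans ?_
  apply div_le_div_of_nonneg_left (by linarith) (by positivity)
  exact pow_le_pow_left₀ hL0.le hlogN _

end Pool.Agent.W99.QE
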