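import Pool.Agent.H505R3.Asym8

/-!
The identity `(X ^ 2 + D) (Y ^ 2 + D) = m ^ 2 (Z ^ 2 + D)` with `D = 2 m - 1`, `X = m x`,
`Y = 2 m ^ 2 x ^ 2 + m - 1`, `Z = x (2 m ^ 2 x ^ 2 + 3 m - 2)`, and the sieve for
`m ^ 2 x ^ 2 + D`, `2 m x ^ 2 - 2 x + 1`, `2 m x ^ 2 + 2 x + 1`.
-/

set_option autoImplicit false

namespace Pool.Agent.W99.EF

open Finset Filter Pool.Agent.H505R2 Pool.Agent.H505R3

/-- quadratics with some coefficient prime to `p` have at most two roots modulo `p` -/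
lemma roots_le_two' (p : ℕ) (hp : p.Prime) (A B C : ℤ)
    (h : ¬ ((p : ℤ) ∣ A ∧ (p : ℤ) ∣ B ∧ (p : ℤ) ∣ C)) :
    ((range p).filter (fun r : ℕ => (p : ℤ) ∣ A * (r : ℤ) ^ 2 + B * r + C)).card ≤ 2 := by
  by_cases hA : (p : ℤ) ∣ A
  · have hpZ : Prime (p : ℤ) := Nat.prime_iff_prime_int.1 hp
    by_cases hB : (p : ℤ) ∣ B
    · have hC : ¬ (p : ℤ) ∣ C := fun hC => h ⟨hA, hB, hC⟩
      rw [Finset.filter_eq_empty_iff.2]
      · simp
      · intro r _ hd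
        apply hC
        have h1 : (p : ℤ) ∣ A * (r : ℤ) ^ 2 + B * r := dvd_add (hA.mul_right _) (hB.mul_right _)
        exact (Int.dvd_add_right h1).1 hd
    · refine le_trans (Finset.card_le_one.2 ?_) (by norm_num)
      intro r hr s hs
      rw [mem_filter, mem_range] at hr hs
      have h1 : (p : ℤ) ∣ B * ((r : ℤ) - s) := by
        have h2 := dvd_sub hr.2 hs.2
        have h3 : A * (r : ℤ) ^ 2 + B * r + C - (A * (s : ℤ) ^ 2 + B * s + C) =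
            A * ((r : ℤ) ^ 2 - s ^ 2) + B * ((r : ℤ) - s) := by ring
        rw [h3] at h2
        exact (Int.dvd_add_right (hA.mul_right _)).1 h2
      have h2 : (p : ℤ) ∣ (r : ℤ) - s := (hpZ.dvd_or_dvd h1).resolve_left hB
      have h3 : ((r : ℤ) - s) = 0 := by
        apply Int.eq_zero_of_abs_lt_dvd h2
        rw [abs_lt]
        constructor <;> omega
      omega
  · exact roots_le_two p hp A B C hA

/-- the bad residues: `p` divides one of the three quadratics at `x = M n` -/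
def DD (m M p n : ℕ) : Prop :=
  (p : ℤ) ∣ ((m : ℤ) ^ 2 * M ^ 2) * (n : ℤ) ^ 2 + 0 * n + (2 * m - 1) ∨
    (p : ℤ) ∣ (2 * (m : ℤ) * M ^ 2) * (n : ℤ) ^ 2 + (-(2 * M)) * n + 1 ∨
    (p : ℤ) ∣ (2 * (m : ℤ) * M ^ 2) * (n : ℤ) ^ 2 + (2 * M) * n + 1

instance (m M p : ℕ) : DecidablePred (DD m M p) := fun n => by unfold DD; infer_instance

lemma DD_mod {m M p n : ℕ} (h : DD m M p n) : DD m M p (n % p) := by
  rcases h with h | h | h
  · exact Or.inl ((quad_mod p _ _ _ n).2 h)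
  · exact Or.inr (Or.inl ((quad_mod p _ _ _ n).2 h))
  · exact Or.inr (Or.inr ((quad_mod p _ _ _ n).2 h))

lemma DD_card {m M p : ℕ} (hp : p.Prime)
    (h : ¬ ((p : ℤ) ∣ (m : ℤ) ^ 2 * M ^ 2 ∧ (p : ℤ) ∣ 2 * m - 1)) :
    ((range p).filter (DD m M p)).card ≤ 6 := by
  have hone : ¬ (p : ℤ) ∣ 1 := by
    intro h1
    have h2 : (p : ℤ) ≤ 1 := Int.le_of_dvd one_pos h1
    have h3 := hp.two_le
    omega
  have h1 := roots_le_two' p hp ((m : ℤ) ^ 2 * M ^ 2) 0 (2 * m - 1) (fun h' => h ⟨h'.1, h'.2.2⟩)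
  have h2 := roots_le_two' p hp (2 * (m : ℤ) * M ^ 2) (-(2 * M)) 1 (fun h' => hone h'.2.2)
  have h3 := roots_le_two' p hp (2 * (m : ℤ) * M ^ 2) (2 * M) 1 (fun h' => hone h'.2.2)
  have h4 : (range p).filter (DD m M p) ⊆
      (range p).filter (fun r : ℕ =>
        (p : ℤ) ∣ ((m : ℤ) ^ 2 * M ^ 2) * (r : ℤ) ^ 2 + 0 * r + (2 * m - 1)) ∪
      ((range p).filter (fun r : ℕ =>
        (p : ℤ) ∣ (2 * (m : ℤ) * M ^ 2) * (r : ℤ) ^ 2 + (-(2 * M)) * r + 1) ∪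
      (range p).filter (fun r : ℕ =>
        (p : ℤ) ∣ (2 * (m : ℤ) * M ^ 2) * (r : ℤ) ^ 2 + (2 * M) * r + 1)) := by
    intro r hr
    rw [mem_filter] at hr
    rw [mem_union, mem_union, mem_filter, mem_filter, mem_filter]
    rcases hr.2 with h | h | h
    · exact Or.inl ⟨hr.1, h⟩
    · exact Or.inr (Or.inl ⟨hr.1, h⟩)
    · exact Or.inr (Or.inr ⟨hr.1, h⟩)
  have h5 := (card_le_card h4).trans ((card_union_le _ _).trans
    (Nat.add_le_add_left (card_union_le _ _) _))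
  omega

/-- the same condition in `ZMod p` -/
def GG {p : ℕ} (μ M n : ZMod p) : Prop :=
  μ ^ 2 * M ^ 2 * n ^ 2 + (2 * μ - 1) = 0 ∨ 2 * μ * M ^ 2 * n ^ 2 - 2 * M * n + 1 = 0 ∨
    2 * μ * M ^ 2 * n ^ 2 + 2 * M * n + 1 = 0

instance {p : ℕ} (μ M n : ZMod p) : Decidable (GG μ M n) := by unfold GG; infer_instance

lemma DD_GG {m M p n : ℕ} (h : DD m M p n) : GG (m : ZMod p) (M : ZMod p) (n : ZMod p) := by
  unfold DD at h
  rw [← ZMod.intCast_zmod_eq_zero_iff_dvd, ← ZMod.intCast_zmod_eq_zero_iff_dvd,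
    ← ZMod.intCast_zmod_eq_zero_iff_dvd] at h
  push_cast at h
  unfold GG
  rcases h with h | h | h
  · left; linear_combination h
  · right; left; linear_combination h
  · right; right; linear_combination h

lemma DD_le_GG (m M p : ℕ) : ((range p).filter (DD m M p)).card ≤
    ((range p).filter (fun n : ℕ => GG (m : ZMod p) (M : ZMod p) (n : ZMod p))).card :=
  card_le_card fun n hn => by
    rw [mem_filter] at hn ⊢
    exact ⟨hn.1, DD_GG hn.2⟩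

lemma c3 : ∀ μ M : ZMod 3, M = 2 → μ ≠ 2 →
    ((range 3).filter (fun n : ℕ => GG μ M (n : ZMod 3))).card ≤ 2 := by decide

lemma c5 : ∀ μ M : ZMod 5, M = 2 ∨ M = 4 →
    ((range 5).filter (fun n : ℕ => GG μ M (n : ZMod 5))).card ≤ 4 := by decide

lemma c7 : ∀ μ M : ZMod 7, (M = 2 ∧ μ ≠ 3) ∨ (M = 0 ∧ μ = 3) →
    ((range 7).filter (fun n : ℕ => GG μ M (n : ZMod 7))).card ≤ 5 := by decide

/-- odd primes up to the sifting limit -/
def SS (I : ℕ) : Finset ℕ := (Icc 3 (2 ^ 2 ^ I)).filter (fun p => p.Prime)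

lemma mem_SS {I p : ℕ} : p ∈ SS I ↔ 3 ≤ p ∧ p ≤ 2 ^ 2 ^ I ∧ p.Prime := by
  rw [SS, mem_filter, mem_Icc, and_assoc]

/-- the admissible pairs `(m, M)` -/
def Adm (m M : ℕ) : Prop := m % 3 ≠ 2 ∧ ((M = 2 ∧ m % 7 ≠ 3) ∨ (M = 14 ∧ m % 7 = 3))

lemma cast_ne {m p r : ℕ} (hr : r < p) (h : m % p ≠ r) : (m : ZMod p) ≠ (r : ZMod p) := by
  intro h1
  rw [ZMod.natCast_eq_natCast_iff] at h1
  unfold Nat.ModEq at h1
  rw [Nat.mod_eq_of_lt hr] at h1
  exact h h1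

lemma cast_eq {m p r : ℕ} (hr : r < p) (h : m % p = r) : (m : ZMod p) = (r : ZMod p) := by
  rw [ZMod.natCast_eq_natCast_iff]
  unfold Nat.ModEq
  rw [Nat.mod_eq_of_lt hr]
  exact h

lemma bad_card {m M : ℕ} (hm : Adm m M) {p : ℕ} (hp : p.Prime) (h3 : 3 ≤ p) :
    5 * ((range p).filter (DD m M p)).card ≤ 4 * p ∧
      ((range p).filter (DD m M p)).card ≤ 2 * 3 := by
  obtain ⟨hm3, hM⟩ := hm
  by_cases hp3 : p = 3
  · subst hp3
    have h1 := (DD_le_GG m M 3).trans (c3 (m : ZMod 3) (M : ZMod 3)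
      (by rcases hM with ⟨rfl, -⟩ | ⟨rfl, -⟩ <;> decide)
      (by have := cast_ne (m := m) (p := 3) (r := 2) (by norm_num) hm3; exact_mod_cast this))
    omega
  by_cases hp5 : p = 5
  · subst hp5
    have h1 := (DD_le_GG m M 5).trans (c5 (m : ZMod 5) (M : ZMod 5)
      (by rcases hM with ⟨rfl, -⟩ | ⟨rfl, -⟩ <;> decide))
    omega
  by_cases hp7 : p = 7
  · subst hp7
    have h1 := (DD_le_GG m M 7).trans (c7 (m : ZMod 7) (M : ZMod 7) (by
      rcases hM with ⟨rfl, h⟩ | ⟨rfl, h⟩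
      · left
        refine ⟨by decide, ?_⟩
        have := cast_ne (m := m) (p := 7) (r := 3) (by norm_num) h
        exact_mod_cast this
      · right
        refine ⟨by decide, ?_⟩
        have := cast_eq (m := m) (p := 7) (r := 3) (by norm_num) h
        exact_mod_cast this))
    omega
  have h11 : 11 ≤ p := by
    by_contra hcon
    push Not at hcon
    interval_cases p <;> revert hp <;> first | omega | (norm_num)
  have h1 := DD_card (m := m) (M := M) hp (by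
    rintro ⟨ha, hb⟩
    have hpZ : Prime (p : ℤ) := Nat.prime_iff_prime_int.1 hp
    rcases hpZ.dvd_or_dvd ha with h | h
    · have h2 : (p : ℤ) ∣ m := hpZ.dvd_of_dvd_pow h
      have h4 : (p : ℤ) ∣ 1 := by
        have h5 : (1 : ℤ) = 2 * m - (2 * m - 1) := by ring
        rw [h5]
        exact dvd_sub (h2.mul_left _) hb
      have := Int.le_of_dvd one_pos h4
      omega
    · have h2 : (p : ℤ) ∣ M := hpZ.dvd_of_dvd_pow h
      have h4 : p ∣ M := by exact_mod_cast h2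
      rcases hM with ⟨rfl, -⟩ | ⟨rfl, -⟩
      · have := Nat.le_of_dvd (by norm_num) h4
        omega
      · have h5 : p ∣ 2 * 7 := by norm_num; exact h4
        rcases hp.dvd_mul.1 h5 with h6 | h6
        · have := Nat.le_of_dvd (by norm_num) h6
          omega
        · have := Nat.le_of_dvd (by norm_num) h6
          omega)
  omega

theorem sift {m M : ℕ} (hm : Adm m M) (I : ℕ) (hI : 1 ≤ I) (k : ℕ) :
    (k : ℝ) * (Real.exp (-96) ^ I / 2) - (2 : ℝ) ^ (1292 * 2 ^ I)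
      ≤ (((Ioc 0 k).filter (fun n => ∀ p ∈ SS I, ¬ DD m M p n)).card : ℝ) := by
  have h := sift_gen 3 (by norm_num) (SS I) (fun p hp => (mem_SS.1 hp).2.2) (DD m M)
    (fun p _ n h => DD_mod h)
    (fun p hp => (bad_card hm (mem_SS.1 hp).2.2 (mem_SS.1 hp).1).1)
    (fun p hp => (bad_card hm (mem_SS.1 hp).2.2 (mem_SS.1 hp).1).2) I hI
    (fun p hp => (mem_SS.1 hp).2.1) k
  have e : (-(32 * ((3 : ℕ) : ℝ))) = -96 := by norm_num
  rw [e] at h
  exact h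

/-- the three values -/
def vX (m x : ℕ) : ℕ := m * x
def vY (m x : ℕ) : ℕ := 2 * m ^ 2 * x ^ 2 + m - 1
def vZ (m x : ℕ) : ℕ := x * (2 * m ^ 2 * x ^ 2 + 3 * m - 2)
/-- the quartic factor -/
def qq (m x : ℕ) : ℕ := 4 * m ^ 2 * x ^ 4 + 4 * (m - 1) * x ^ 2 + 1

lemma eqY {m : ℕ} (hm : 0 < m) (x : ℕ) : vY m x ^ 2 + (2 * m - 1) = m ^ 2 * qq m x := by
  obtain ⟨k, rfl⟩ : ∃ k, m = k + 1 := ⟨m - 1, by omega⟩
  have h1 : vY (k + 1) x = 2 * (k + 1) ^ 2 * x ^ 2 + k := by unfold vY; omega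
  have h2 : 2 * (k + 1) - 1 = 2 * k + 1 := by omega
  rw [h1, h2, qq, Nat.add_sub_cancel]
  ring

lemma eqZ {m : ℕ} (hm : 0 < m) (x : ℕ) :
    vZ m x ^ 2 + (2 * m - 1) = (vX m x ^ 2 + (2 * m - 1)) * qq m x := by
  obtain ⟨k, rfl⟩ : ∃ k, m = k + 1 := ⟨m - 1, by omega⟩
  have h1 : vZ (k + 1) x = x * (2 * (k + 1) ^ 2 * x ^ 2 + 3 * k + 1) := by
    unfold vZ
    congr 1
  have h2 : 2 * (k + 1) - 1 = 2 * k + 1 := by omega
  rw [h1, h2, qq, vX, Nat.add_sub_cancel]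
  ring

/-- the two factors are rough -/
theorem rough {m M I n : ℕ} (hm0 : 0 < m) (hM : Even M) (hk : ∀ p ∈ SS I, ¬ DD m M p n) :
    Rough (2 ^ 2 ^ I) (vX m (M * n) ^ 2 + (2 * m - 1)) ∧ Rough (2 ^ 2 ^ I) (qq m (M * n)) := by
  obtain ⟨k, rfl⟩ : ∃ k, m = k + 1 := ⟨m - 1, by omega⟩
  have key : ∀ a : ℕ, Odd a → (∀ p : ℕ, p.Prime → p ∣ a → DD (k + 1) M p n) →
      Rough (2 ^ 2 ^ I) a := by
    intro a ha hD p hp hd
    by_contra hcon
    push Not at hcon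
    have h2 : p ≠ 2 := by
      rintro rfl
      exact (Nat.not_even_iff_odd.2 ha) (even_iff_two_dvd.2 hd)
    have h3 : 3 ≤ p := by
      have := hp.two_le
      omega
    exact hk p (mem_SS.2 ⟨h3, hcon, hp⟩) (hD p hp hd)
  have hx : Even (M * n) := hM.mul_right n
  constructor
  · apply key
    · have h1 : 2 * (k + 1) - 1 = 2 * k + 1 := by omega
      rw [h1, vX]
      exact ((hx.mul_left _).pow_of_ne_zero (by norm_num)).add_odd ⟨k, rfl⟩
    · intro p hp hd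
      left
      have h1 : (p : ℤ) ∣ ((vX (k + 1) (M * n) ^ 2 + (2 * (k + 1) - 1) : ℕ) : ℤ) := by
        exact_mod_cast hd
      have h2 : 2 * (k + 1) - 1 = 2 * k + 1 := by omega
      rw [h2, vX] at h1
      convert h1 using 1
      push_cast
      ring
  · apply key
    · refine ⟨2 * (k + 1) ^ 2 * (M * n) ^ 4 + 2 * k * (M * n) ^ 2, ?_⟩
      rw [qq, Nat.add_sub_cancel]
      ring
    · intro p hp hd
      right
      have h1 : (p : ℤ) ∣ ((qq (k + 1) (M * n) : ℕ) : ℤ) := by exact_mod_cast hd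
      have h2 : ((qq (k + 1) (M * n) : ℕ) : ℤ) =
          ((2 * ((k + 1 : ℕ) : ℤ) * M ^ 2) * (n : ℤ) ^ 2 + (-(2 * M)) * n + 1) *
          ((2 * ((k + 1 : ℕ) : ℤ) * M ^ 2) * (n : ℤ) ^ 2 + (2 * M) * n + 1) := by
        rw [qq, Nat.add_sub_cancel]
        push_cast
        ring
      rw [h2] at h1
      exact (Nat.prime_iff_prime_int.1 hp).dvd_or_dvd h1

lemma vY_mono {m : ℕ} (hm : 0 < m) : StrictMono (vY m) := by
  intro a b hab
  unfold vY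
  have h1 : a ^ 2 < b ^ 2 := Nat.pow_lt_pow_left hab (by norm_num)
  have h2 : 2 * m ^ 2 * a ^ 2 < 2 * m ^ 2 * b ^ 2 := Nat.mul_lt_mul_of_pos_left h1 (by positivity)
  omega

lemma vZ_mono {m : ℕ} (hm : 0 < m) : StrictMono (vZ m) := by
  intro a b hab
  unfold vZ
  have h1 : a ^ 2 < b ^ 2 := Nat.pow_lt_pow_left hab (by norm_num)
  have h2 : 2 * m ^ 2 * a ^ 2 < 2 * m ^ 2 * b ^ 2 := Nat.mul_lt_mul_of_pos_left h1 (by positivity)
  exact Nat.mul_lt_mul'' hab (by omega)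

/-- the set that is counted -/
def GS (m : ℕ) (E : ℕ → Prop) (z X : ℕ) : Set ℕ :=
  {n : ℕ | n ≤ X ∧ 0 < n ∧ Even n ∧ (∃ d u : ℕ, (d = 1 ∨ d = m) ∧ n ^ 2 + (2 * m - 1) = d ^ 2 * u ∧
    Rough z u) ∧ E (n ^ 2 + (2 * m - 1))}

lemma bounds {m M n k : ℕ} (hm : 0 < m) (hM : M ≤ 14) (hn : 0 < n) (hk : n ≤ k) :
    vX m (M * n) ≤ 5530 * m ^ 2 * k ^ 3 ∧ vY m (M * n) ≤ 5530 * m ^ 2 * k ^ 3 ∧
      vZ m (M * n) ≤ 5530 * m ^ 2 * k ^ 3 := by
  have hx : M * n ≤ 14 * n := Nat.mul_le_mul_right _ hM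
  have h0 : 5530 * m ^ 2 * n ^ 3 ≤ 5530 * m ^ 2 * k ^ 3 :=
    Nat.mul_le_mul_left _ (Nat.pow_le_pow_left hk 3)
  have hmm : m ≤ m ^ 2 := Nat.le_self_pow (by norm_num) m
  have hnn : n ≤ n ^ 3 := Nat.le_self_pow (by norm_num) n
  have hn2 : n ^ 2 ≤ n ^ 3 := Nat.pow_le_pow_right hn (by norm_num)
  have h14 : (M * n) ^ 2 ≤ 196 * n ^ 2 := by
    calc (M * n) ^ 2 ≤ (14 * n) ^ 2 := Nat.pow_le_pow_left hx 2
      _ = 196 * n ^ 2 := by ring
  have hmn : m * n ≤ m ^ 2 * n ^ 3 := Nat.mul_le_mul hmm hnn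
  have hm1 : m ≤ m ^ 2 * n ^ 3 := by
    calc m = m * 1 := (mul_one m).symm
      _ ≤ m ^ 2 * n ^ 3 := Nat.mul_le_mul hmm (Nat.one_le_pow _ _ hn)
  refine ⟨le_trans ?_ h0, le_trans ?_ h0, le_trans ?_ h0⟩
  · unfold vX
    calc m * (M * n) ≤ m * (14 * n) := Nat.mul_le_mul_left _ hx
      _ = 14 * (m * n) := by ring
      _ ≤ 14 * (m ^ 2 * n ^ 3) := Nat.mul_le_mul_left _ hmn
      _ ≤ 5530 * m ^ 2 * n ^ 3 := by nlinarith [Nat.zero_le (m ^ 2 * n ^ 3)]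
  · unfold vY
    have h1 : 2 * m ^ 2 * (M * n) ^ 2 ≤ 392 * (m ^ 2 * n ^ 3) := by
      calc 2 * m ^ 2 * (M * n) ^ 2 ≤ 2 * m ^ 2 * (196 * n ^ 3) :=
            Nat.mul_le_mul_left _ (h14.trans (Nat.mul_le_mul_left _ hn2))
        _ = 392 * (m ^ 2 * n ^ 3) := by ring
    calc 2 * m ^ 2 * (M * n) ^ 2 + m - 1 ≤ 392 * (m ^ 2 * n ^ 3) + m ^ 2 * n ^ 3 := by omega
      _ ≤ 5530 * m ^ 2 * n ^ 3 := by nlinarith [Nat.zero_le (m ^ 2 * n ^ 3)]
  · unfold vZ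
    have h1 : 2 * m ^ 2 * (M * n) ^ 2 + 3 * m - 2 ≤ 392 * (m ^ 2 * n ^ 2) + 3 * m := by
      have : 2 * m ^ 2 * (M * n) ^ 2 ≤ 392 * (m ^ 2 * n ^ 2) := by
        calc 2 * m ^ 2 * (M * n) ^ 2 ≤ 2 * m ^ 2 * (196 * n ^ 2) := Nat.mul_le_mul_left _ h14
          _ = 392 * (m ^ 2 * n ^ 2) := by ring
      omega
    calc M * n * (2 * m ^ 2 * (M * n) ^ 2 + 3 * m - 2)
        ≤ (14 * n) * (392 * (m ^ 2 * n ^ 2) + 3 * m) := Nat.mul_le_mul hx h1
      _ = 5488 * (m ^ 2 * n ^ 3) + 42 * (m * n) := by ring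
      _ ≤ 5488 * (m ^ 2 * n ^ 3) + 42 * (m ^ 2 * n ^ 3) :=
          Nat.add_le_add_left (Nat.mul_le_mul_left _ hmn) _
      _ = 5530 * m ^ 2 * n ^ 3 := by ring

/-- finite version: one of the three values has the property -/
theorem count {m M : ℕ} (hm : Adm m M) (hodd : Odd m) (E : ℕ → Prop)
    (hE : ∀ a b : ℕ, a ≠ 0 → b ≠ 0 → ¬ E a → ¬ E b → E (a * b))
    (hsq : ∀ a : ℕ, a ≠ 0 → E a → E (m ^ 2 * a)) (I : ℕ)
    (hI : 1 ≤ I) (k X : ℕ) (hX : 5530 * m ^ 2 * k ^ 3 ≤ X) :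
    (k : ℝ) * (Real.exp (-96) ^ I / 2) - (2 : ℝ) ^ (1292 * 2 ^ I) ≤
      3 * ((GS m E (2 ^ 2 ^ I) X).ncard : ℝ) := by
  classical
  have hm0 : 0 < m := hodd.pos
  have hM : 0 < M ∧ M ≤ 14 ∧ Even M := by
    rcases hm.2 with ⟨rfl, -⟩ | ⟨rfl, -⟩
    · exact ⟨by norm_num, by norm_num, by decide⟩
    · exact ⟨by norm_num, by norm_num, by decide⟩
  obtain ⟨hM0, hM14, hMe⟩ := hM
  refine (sift hm I hI k).trans ?_
  obtain ⟨T, hT⟩ : ∃ T, T = (Ioc 0 k).filter (fun n => ∀ p ∈ SS I, ¬ DD m M p n) := ⟨_, rfl⟩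
  rw [← hT]
  have hGf : (GS m E (2 ^ 2 ^ I) X).Finite := (Set.finite_Iic X).subset fun _ hn => hn.1
  have hmem : ∀ n ∈ T, 0 < n ∧ n ≤ k ∧ Rough (2 ^ 2 ^ I) (vX m (M * n) ^ 2 + (2 * m - 1)) ∧
      Rough (2 ^ 2 ^ I) (qq m (M * n)) := by
    intro n hn
    rw [hT, mem_filter, mem_Ioc] at hn
    have := rough hm0 hMe hn.2
    exact ⟨hn.1.1, hn.1.2, this.1, this.2⟩
  have hD0 : 0 < 2 * m - 1 := by omega
  have hq0 : ∀ x, qq m x ≠ 0 := fun x => by unfold qq; positivity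
  obtain ⟨T1, hT1⟩ : ∃ T1, T1 = T.filter (fun n => E (vX m (M * n) ^ 2 + (2 * m - 1))) := ⟨_, rfl⟩
  obtain ⟨T2, hT2⟩ : ∃ T2, T2 = T.filter (fun n => E (qq m (M * n))) := ⟨_, rfl⟩
  obtain ⟨T3, hT3⟩ : ∃ T3, T3 = T.filter (fun n => E (vZ m (M * n) ^ 2 + (2 * m - 1))) := ⟨_, rfl⟩
  have hcover : T ⊆ T1 ∪ (T2 ∪ T3) := by
    intro n hn
    rw [mem_union, mem_union, hT1, hT2, hT3, mem_filter, mem_filter, mem_filter]
    by_cases h1 : E (vX m (M * n) ^ 2 + (2 * m - 1))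
    · exact Or.inl ⟨hn, h1⟩
    · by_cases h2 : E (qq m (M * n))
      · exact Or.inr (Or.inl ⟨hn, h2⟩)
      · refine Or.inr (Or.inr ⟨hn, ?_⟩)
        rw [eqZ hm0]
        exact hE _ _ (by positivity) (hq0 _) h1 h2
  have hx : ∀ n, Even (M * n) := fun n => hMe.mul_right n
  have c1 : T1.card ≤ (GS m E (2 ^ 2 ^ I) X).ncard := by
    rw [← Set.ncard_coe_finset]
    apply Set.ncard_le_ncard_of_injOn (fun n => vX m (M * n)) _ _ hGf
    · intro n hn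
      rw [mem_coe, hT1, mem_filter] at hn
      obtain ⟨h0, hk, r1, r2⟩ := hmem n hn.1
      refine ⟨(bounds hm0 hM14 h0 hk).1.trans hX, ?_, ?_, ⟨1, _, Or.inl rfl, ?_, r1⟩, hn.2⟩
      · exact Nat.mul_pos hm0 (Nat.mul_pos hM0 h0)
      · exact (hx n).mul_left m
      · rw [one_pow, one_mul]
    · intro a _ b _ hab
      have h1 : m * (M * a) = m * (M * b) := hab
      exact Nat.eq_of_mul_eq_mul_left hM0 (Nat.eq_of_mul_eq_mul_left hm0 h1)
  have c2 : T2.card ≤ (GS m E (2 ^ 2 ^ I) X).ncard := by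
    rw [← Set.ncard_coe_finset]
    apply Set.ncard_le_ncard_of_injOn (fun n => vY m (M * n)) _ _ hGf
    · intro n hn
      rw [mem_coe, hT2, mem_filter] at hn
      obtain ⟨h0, hk, r1, r2⟩ := hmem n hn.1
      have hxp : 0 < M * n := Nat.mul_pos hM0 h0
      refine ⟨(bounds hm0 hM14 h0 hk).2.1.trans hX, ?_, ?_,
        ⟨m, _, Or.inr rfl, eqY hm0 _, r2⟩, ?_⟩
      · unfold vY
        have : 0 < 2 * m ^ 2 * (M * n) ^ 2 := by positivity
        omega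
      · obtain ⟨j, hj⟩ := hodd
        refine ⟨m ^ 2 * (M * n) ^ 2 + j, ?_⟩
        have h5 : 2 * m ^ 2 * (M * n) ^ 2 = 2 * (m ^ 2 * (M * n) ^ 2) := by ring
        unfold vY
        omega
      · show E (vY m (M * n) ^ 2 + (2 * m - 1))
        rw [eqY hm0]
        exact hsq _ (hq0 _) hn.2
    · intro a _ b _ hab
      exact Nat.eq_of_mul_eq_mul_left hM0 ((vY_mono hm0).injective hab)
  have c3 : T3.card ≤ (GS m E (2 ^ 2 ^ I) X).ncard := by
    rw [← Set.ncard_coe_finset]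
    apply Set.ncard_le_ncard_of_injOn (fun n => vZ m (M * n)) _ _ hGf
    · intro n hn
      rw [mem_coe, hT3, mem_filter] at hn
      obtain ⟨h0, hk, r1, r2⟩ := hmem n hn.1
      have hxp : 0 < M * n := Nat.mul_pos hM0 h0
      refine ⟨(bounds hm0 hM14 h0 hk).2.2.trans hX, ?_, ?_,
        ⟨1, (vX m (M * n) ^ 2 + (2 * m - 1)) * qq m (M * n), Or.inl rfl, ?_, ?_⟩, hn.2⟩
      · unfold vZ
        have : 0 < 2 * m ^ 2 * (M * n) ^ 2 := by positivity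
        exact Nat.mul_pos hxp (by omega)
      · exact (hx n).mul_right _
      · rw [one_pow, one_mul, eqZ hm0]
      · exact r1.mul r2
    · intro a _ b _ hab
      exact Nat.eq_of_mul_eq_mul_left hM0 ((vZ_mono hm0).injective hab)
  have h1 := (card_le_card hcover).trans ((card_union_le _ _).trans
    (Nat.add_le_add_left (card_union_le _ _) _))
  have h2 : T.card ≤ 3 * (GS m E (2 ^ 2 ^ I) X).ncard := by omega
  exact_mod_cast h2

theorem main {m M : ℕ} (hm : Adm m M) (hodd : Odd m) : ∃ X₀ : ℕ, ∀ E : ℕ → Prop,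
    (∀ a b : ℕ, a ≠ 0 → b ≠ 0 → ¬ E a → ¬ E b → E (a * b)) →
    (∀ a : ℕ, a ≠ 0 → E a → E (m ^ 2 * a)) → ∀ X : ℕ, X₀ ≤ X →
      (X : ℝ) ^ ((1 : ℝ) / 3) / Real.log X ^ 140 ≤
        (({n : ℕ | n ≤ X ∧ 0 < n ∧ Even n ∧ (∃ d u : ℕ, (d = 1 ∨ d = m) ∧
          n ^ 2 + (2 * m - 1) = d ^ 2 * u ∧
          (∀ p : ℕ, p.Prime → p ∣ u → (X : ℝ) ^ ((1 : ℝ) / 8000) < p)) ∧
          E (n ^ 2 + (2 * m - 1))} : Set ℕ).ncard : ℝ) := by
  have hm0 : 0 < m := hodd.pos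
  have hmR : (1 : ℝ) ≤ m := by exact_mod_cast hm0
  obtain ⟨c, hc⟩ : ∃ c : ℝ, c = 18 * m := ⟨_, rfl⟩
  have hc18 : 18 ≤ c := by rw [hc]; linarith
  obtain ⟨B, hB⟩ : ∃ B : ℝ, B = (2 : ℝ) ^ (1300 * 2 ^ 10) := ⟨_, rfl⟩
  have hev : ∀ᶠ X : ℕ in atTop, (B + 1) * c ≤ (X : ℝ) ^ ((1 : ℝ) / 3) ∧
      (c + 1) * c ≤ (X : ℝ) ^ ((1 : ℝ) / 3) ∧
      (c + 1) ≤ (X : ℝ) ^ ((1 : ℝ) / 3 - 2600 / 8000) ∧ 2 ≤ X ∧ 12 * (c + 1) ≤ Real.log X := by
    have e1 := ev_ge (show (0 : ℝ) < 1 / 3 by norm_num) ((B + 1) * c)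
    have e2 := ev_ge (show (0 : ℝ) < 1 / 3 by norm_num) ((c + 1) * c)
    have e3 := ev_ge (show (0 : ℝ) < 1 / 3 - 2600 / 8000 by norm_num) (c + 1)
    have e5 := (Real.tendsto_log_atTop.comp tendsto_natCast_atTop_atTop).eventually_ge_atTop
      (12 * (c + 1))
    filter_upwards [e1, e2, e3, eventually_ge_atTop 2, e5] with X h1 h2 h3 h4 h5
    exact ⟨h1, h2, h3, h4, h5⟩
  rw [eventually_atTop] at hev
  obtain ⟨X₀, hX₀⟩ := hev
  refine ⟨X₀, fun E hE hsq X hX => ?_⟩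
  obtain ⟨a1, a2, a3, a4, a5⟩ := hX₀ X hX
  have hX0 : (0 : ℝ) < X := by exact_mod_cast (by omega : 0 < X)
  have hX1 : (1 : ℝ) < X := by exact_mod_cast (by omega : 1 < X)
  have hcpos : 0 < c := by linarith
  set x : ℝ := (X : ℝ) ^ ((1 : ℝ) / 3) with hx
  have hx3 : x ^ 3 = X := by
    rw [hx, ← Real.rpow_natCast, ← Real.rpow_mul hX0.le]
    norm_num
  have hxpos : 0 < x := by positivity
  set K : ℕ := ⌊x / c⌋₊ with hK
  have hK1 : (K : ℝ) ≤ x / c := Nat.floor_le (by positivity)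
  have hK2 : x / c < K + 1 := Nat.lt_floor_add_one _
  have hK3 : x / (c + 1) ≤ K := by
    have h1 : 1 ≤ x / c - x / (c + 1) := by
      rw [div_sub_div _ _ (by positivity) (by positivity), le_div_iff₀ (by positivity)]
      nlinarith
    linarith
  have hKX : 5530 * m ^ 2 * K ^ 3 ≤ X := by
    have h1 : (K : ℝ) ^ 3 ≤ (x / c) ^ 3 := pow_le_pow_left₀ (Nat.cast_nonneg _) hK1 3
    have h2 : (5530 : ℝ) * m ^ 2 * (K : ℝ) ^ 3 ≤ X := by
      rw [div_pow, hx3, hc, mul_pow] at h1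
      calc (5530 : ℝ) * m ^ 2 * (K : ℝ) ^ 3 ≤ 5530 * m ^ 2 * (X / (18 ^ 3 * m ^ 3)) :=
            mul_le_mul_of_nonneg_left h1 (by positivity)
        _ ≤ X := by
            rw [mul_div_assoc', div_le_iff₀ (by positivity)]
            have h3 : (m : ℝ) ^ 2 ≤ m ^ 3 := pow_le_pow_right₀ hmR (by norm_num)
            nlinarith [mul_le_mul_of_nonneg_right h3 hX0.le, mul_nonneg (sq_nonneg (m : ℝ)) hX0.le]
    exact_mod_cast h2
  obtain ⟨I, hI0, hI1, hI2⟩ := exists_levelG 1300 (by norm_num) (x := (K : ℝ)) 10 (by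
    rw [← hB]
    have : B + 1 ≤ x / c := by rw [le_div_iff₀ hcpos]; exact a1
    linarith)
  have hcount := count hm hodd E hE hsq I (by omega) K X hKX
  -- the sieve bound is large
  have hE1 := exp96I I
  have hP := pow_big2 I hI0
  set W : ℝ := (2 : ℝ) ^ (139 * I) with hW
  have hWpos : 0 < W := by positivity
  have hlow : (K : ℝ) / (4 * W) ≤ (K : ℝ) * (Real.exp (-96) ^ I / 2) - (2 : ℝ) ^ (1292 * 2 ^ I) := by
    have h1 : (2 : ℝ) ^ (1292 * 2 ^ I) * (4 * W) ≤ K := by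
      refine le_trans ?_ hI1
      rw [hW, show (4 : ℝ) = 2 ^ 2 by norm_num, ← pow_add, ← pow_add]
      apply pow_le_pow_right₀ (by norm_num)
      omega
    have h2 : (2 : ℝ) ^ (1292 * 2 ^ I) ≤ K / (4 * W) := by
      rw [le_div_iff₀ (by positivity)]
      exact h1
    have h3 : (K : ℝ) / (2 * W) ≤ (K : ℝ) * (Real.exp (-96) ^ I / 2) := by
      rw [div_le_iff₀ (by positivity)]
      have : (K : ℝ) * (Real.exp (-96) ^ I / 2) * (2 * W) = K * (Real.exp (-96) ^ I * W) := by ring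
      rw [this]
      have hK0 : (0 : ℝ) ≤ K := Nat.cast_nonneg _
      nlinarith
    have h4 : (K : ℝ) / (2 * W) = K / (4 * W) + K / (4 * W) := by field_simp; ring
    linarith
  -- sifting limit
  have hz : (X : ℝ) ^ ((1 : ℝ) / 8000) < (2 : ℝ) ^ 2 ^ I := by
    have h1 : ((X : ℝ) ^ ((1 : ℝ) / 8000)) ^ (2600 : ℕ) < ((2 : ℝ) ^ 2 ^ I) ^ (2600 : ℕ) := by
      rw [← Real.rpow_natCast, ← Real.rpow_mul hX0.le, ← pow_mul]
      have e1 : (1 : ℝ) / 8000 * ((2600 : ℕ) : ℝ) = 2600 / 8000 := by push_cast; ring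
      rw [e1, mul_comm (2 ^ I) 2600]
      refine lt_of_le_of_lt ?_ hI2
      refine le_trans ?_ hK3
      rw [le_div_iff₀ (by positivity), hx]
      have h2 : (X : ℝ) ^ ((1 : ℝ) / 3) = (X : ℝ) ^ ((2600 : ℝ) / 8000) *
          (X : ℝ) ^ ((1 : ℝ) / 3 - 2600 / 8000) := by
        rw [← Real.rpow_add hX0]
        congr 1
        ring
      rw [h2]
      exact mul_le_mul_of_nonneg_left a3 (by positivity)
    exact lt_of_pow_lt_pow_left₀ 2600 (by positivity) h1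
  -- comparison with powers of the logarithm
  have hlog : 0 < Real.log X := Real.log_pos hX1
  have hKX' : (K : ℝ) ≤ X := by
    have h1 : x ≤ x ^ 3 := le_self_pow₀ (by nlinarith) (by norm_num)
    rw [hx3] at h1
    have h2 : x / c ≤ x := div_le_self hxpos.le (by linarith)
    linarith
  have hI3 : (2 : ℝ) ^ I * 2 ≤ Real.log X := by
    have h1 : Real.log ((2 : ℝ) ^ (1300 * 2 ^ I)) ≤ Real.log X :=
      Real.log_le_log (by positivity) (hI1.trans hKX')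
    rw [Real.log_pow] at h1
    push_cast at h1
    have h2 := Real.log_two_gt_d9
    have h3 : (0 : ℝ) < 2 ^ I := by positivity
    nlinarith
  have hI4 : W * (12 * (c + 1)) ≤ Real.log X ^ 140 := by
    calc W * (12 * (c + 1)) ≤ W * (2 ^ 139 * Real.log X) := by
          apply mul_le_mul_of_nonneg_left _ hWpos.le
          nlinarith
      _ = ((2 : ℝ) ^ I * 2) ^ 139 * Real.log X := by
          rw [mul_pow, hW, ← pow_mul, mul_comm 139 I]; ring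
      _ ≤ Real.log X ^ 139 * Real.log X :=
          mul_le_mul_of_nonneg_right (pow_le_pow_left₀ (by positivity) hI3 139) hlog.le
      _ = Real.log X ^ 140 := (pow_succ _ _).symm
  have hfin : x / Real.log X ^ 140 ≤ (K : ℝ) / (4 * W) / 3 := by
    rw [div_div, div_le_div_iff₀ (by positivity) (by positivity)]
    have h0 : x ≤ (c + 1) * K := by
      rw [div_le_iff₀ (by positivity)] at hK3
      linarith
    have h1 : x * (4 * W * 3) ≤ ((c + 1) * K) * (4 * W * 3) :=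
      mul_le_mul_of_nonneg_right h0 (by positivity)
    have h2 : ((c + 1) * (K : ℝ)) * (4 * W * 3) = K * (W * (12 * (c + 1))) := by ring
    rw [h2] at h1
    exact h1.trans (mul_le_mul_of_nonneg_left hI4 (Nat.cast_nonneg _))
  refine hfin.trans ?_
  rw [div_le_iff₀ (by norm_num)]
  refine (hlow.trans hcount).trans ?_
  rw [mul_comm]
  apply mul_le_mul_of_nonneg_right _ (by norm_num)
  have hsub : GS m E (2 ^ 2 ^ I) X ⊆ {n : ℕ | n ≤ X ∧ 0 < n ∧ Even n ∧ (∃ d u : ℕ, (d = 1 ∨ d = m) ∧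
          n ^ 2 + (2 * m - 1) = d ^ 2 * u ∧
          (∀ p : ℕ, p.Prime → p ∣ u → (X : ℝ) ^ ((1 : ℝ) / 8000) < p)) ∧
          E (n ^ 2 + (2 * m - 1))} := by
    rintro n ⟨h1, h2, h3, ⟨d, u, hd, hu, hr⟩, h5⟩
    refine ⟨h1, h2, h3, ⟨d, u, hd, hu, fun p hp hdv => hz.trans ?_⟩, h5⟩
    exact_mod_cast hr p hp hdv
  exact_mod_cast Set.ncard_le_ncard hsub ((Set.finite_Iic X).subset fun _ hn => hn.1)

end Pool.Agent.W99.EF
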