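import Pool.Agent.W960.HC.Defs

set_option autoImplicit false

open Set Topology Filter MeasureTheory

namespace Pool.Agent.W99.HC

open Pool.Agent.W960.HC

theorem kp_pos (X : ℝ) : 0 < kp X := by unfold kp; positivity

theorem kle' {x X : ℝ} (hx : 0 ≤ x) (h : x < X) : kp X * Real.exp (x ^ 2) < 1 + x ^ 2 := by
  have ht : 0 < X ^ 2 - x ^ 2 := by nlinarith
  have h1 : (X ^ 2 - x ^ 2) + 1 < Real.exp (X ^ 2 - x ^ 2) := Real.add_one_lt_exp ht.ne'
  have h2 : kp X * Real.exp (x ^ 2) * Real.exp (X ^ 2 - x ^ 2) = 1 + X ^ 2 := by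
    unfold kp
    have : Real.exp (-X ^ 2) * Real.exp (x ^ 2) * Real.exp (X ^ 2 - x ^ 2) = 1 := by
      rw [← Real.exp_add, ← Real.exp_add, show -X ^ 2 + x ^ 2 + (X ^ 2 - x ^ 2) = 0 by ring,
        Real.exp_zero]
    linear_combination (1 + X ^ 2) * this
  have h3 : 1 + X ^ 2 < (1 + x ^ 2) * Real.exp (X ^ 2 - x ^ 2) := by
    have := mul_lt_mul_of_pos_left h1 (show 0 < 1 + x ^ 2 by positivity)
    nlinarith [mul_nonneg (sq_nonneg x) ht.le]
  have h4 := Real.exp_pos (X ^ 2 - x ^ 2)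
  by_contra hc
  push Not at hc
  have := mul_le_mul_of_nonneg_right hc h4.le
  linarith

theorem keq (X : ℝ) : kp X * Real.exp (X ^ 2) = 1 + X ^ 2 := by
  unfold kp
  have : Real.exp (-X ^ 2) * Real.exp (X ^ 2) = 1 := by
    rw [← Real.exp_add, show -X ^ 2 + X ^ 2 = 0 by ring, Real.exp_zero]
  linear_combination (1 + X ^ 2) * this

theorem kle {x X : ℝ} (hx : 0 ≤ x) (h : x ≤ X) : kp X * Real.exp (x ^ 2) ≤ 1 + x ^ 2 := by
  rcases h.eq_or_lt with h | h
  · rw [h]; exact (keq X).le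
  · exact (kle' hx h).le

theorem kX {X : ℝ} (hX : 0 ≤ X) : kp X * X ≤ 2 := by
  have h1 := Real.quadratic_le_exp_of_nonneg (sq_nonneg X)
  have h2 := keq X
  have h3 := Real.exp_pos (X ^ 2)
  have h4 : (1 + X ^ 2) * X ≤ 2 * Real.exp (X ^ 2) := by
    nlinarith [sq_nonneg (X ^ 2 - X), sq_nonneg (X - 1), sq_nonneg X]
  have h5 : kp X * X * Real.exp (X ^ 2) = (1 + X ^ 2) * X := by linear_combination X * h2
  by_contra hc
  push Not at hc
  have := mul_lt_mul_of_pos_right hc h3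
  linarith

theorem kX3 {X : ℝ} (hX : 1 ≤ X) : kp X * X ^ 3 ≤ 48 / X := by
  have h1 := Real.pow_div_factorial_le_exp (X ^ 2) (sq_nonneg X) 4
  have h2 := keq X
  have h3 := Real.exp_pos (X ^ 2)
  have h0 : (0:ℝ) < X := by linarith
  rw [le_div_iff₀ h0]
  have h24 : ((Nat.factorial 4 : ℕ) : ℝ) = 24 := by norm_num [Nat.factorial]
  rw [h24] at h1
  have h4 : (1 + X ^ 2) * X ^ 4 ≤ 48 * Real.exp (X ^ 2) := by
    have h5 : (1 + X ^ 2) * X ^ 4 ≤ 2 * (X ^ 2) ^ 4 := by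
      have e1 : (1:ℝ) ≤ X ^ 2 := by nlinarith
      have e2 : X ^ 4 ≤ X ^ 8 := pow_le_pow_right₀ hX (by norm_num)
      have e3 : X ^ 6 ≤ X ^ 8 := pow_le_pow_right₀ hX (by norm_num)
      nlinarith
    linarith
  have h5 : kp X * X ^ 3 * X * Real.exp (X ^ 2) = (1 + X ^ 2) * X ^ 4 := by
    linear_combination X ^ 4 * h2
  by_contra hc
  push Not at hc
  have := mul_lt_mul_of_pos_right hc h3
  linarith

/-- the algebraic identity -/
theorem alg_id {s y k w x a d e : ℝ} (hs : s ^ 2 = 1 + x ^ 2)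
    (hy : y ^ 2 = 1 + x ^ 2 - k * w) (he : e * w = 1) :
    (e * s * (a + (-3 - d) * x ^ 2 + s ^ 2) - e * y * (a + (-3 - d) * x ^ 2 + y ^ 2)) * (s + y)
      = k * (a + 3 - d * x ^ 2 - 2 * (k * w) + (s * y - y ^ 2)) := by
  have h1 : (s - y) * (s + y) = k * w := by linear_combination hs - hy
  have h2 : (e * s * (a + (-3 - d) * x ^ 2 + s ^ 2) - e * y * (a + (-3 - d) * x ^ 2 + y ^ 2))
      * (s + y) = e * ((s - y) * (s + y)) * (a + (-3 - d) * x ^ 2 + s ^ 2 + s * y + y ^ 2) := by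
    ring
  rw [h2, h1]
  have h3 : e * (k * w) = k := by linear_combination k * he
  rw [h3]
  linear_combination k * hs + 2 * k * hy

theorem alg_lower {s t y k w x a d e : ℝ} (hs : s ^ 2 = 1 + x ^ 2) (hs1 : 1 ≤ s)
    (hy : y ^ 2 = 1 + x ^ 2 - k * w) (he : e * w = 1) (hy0 : 0 ≤ y) (hys : y ≤ s)
    (ht : t * s = 1) (hk : 0 < k) (hw : 0 < w) (ha : 0 ≤ a + 3) (hd : 0 ≤ d) :
    k * ((a + 3) / 2 * t - d * x ^ 2 - 2 * (k * (w * t))) ≤
      e * s * (a + (-3 - d) * x ^ 2 + s ^ 2) - e * y * (a + (-3 - d) * x ^ 2 + y ^ 2) := by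
  have hid := alg_id (a := a) (d := d) hs hy he
  have hsy : 0 < s + y := by linarith
  have ht0 : 0 < t := by
    by_contra hc
    push Not at hc
    nlinarith
  have hty : 0 ≤ t * y := mul_nonneg ht0.le hy0
  have hty1 : t * y ≤ 1 := by
    calc t * y ≤ t * s := mul_le_mul_of_nonneg_left hys ht0.le
      _ = 1 := ht
  refine le_of_mul_le_mul_right ?_ hsy
  rw [hid]
  have e1 : k * ((a + 3) / 2 * t - d * x ^ 2 - 2 * (k * (w * t))) * (s + y)
      = k * ((a + 3) / 2 * (1 + t * y) - d * x ^ 2 * (s + y) - 2 * (k * w) * (1 + t * y)) := by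
    linear_combination k * ((a + 3) / 2 - 2 * (k * w)) * ht
  rw [e1]
  refine mul_le_mul_of_nonneg_left ?_ hk.le
  have f1 : (a + 3) / 2 * (1 + t * y) ≤ a + 3 := by nlinarith
  have f2 : d * x ^ 2 ≤ d * x ^ 2 * (s + y) :=
    le_mul_of_one_le_right (mul_nonneg hd (sq_nonneg x)) (by linarith)
  have f3 : 2 * (k * w) ≤ 2 * (k * w) * (1 + t * y) :=
    le_mul_of_one_le_right (by positivity) (by linarith)
  have f4 : 0 ≤ s * y - y ^ 2 := by nlinarith
  linarith

theorem alg_upper {s y k w x a d e : ℝ} (hx : 0 ≤ x) (hs : s ^ 2 = 1 + x ^ 2) (hs1 : 1 ≤ s)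
    (hy : y ^ 2 = 1 + x ^ 2 - k * w) (he : e * w = 1) (hy0 : 0 ≤ y) (hys : y ≤ s)
    (hk : 0 < k) (hw : 0 < w) (ha : 0 ≤ a + 3) (hd : 0 ≤ d) :
    e * s * (a + (-3 - d) * x ^ 2 + s ^ 2) - e * y * (a + (-3 - d) * x ^ 2 + y ^ 2) ≤
      k * ((a + 3) - d / 2 * (x - 1)) := by
  have hid := alg_id (a := a) (d := d) hs hy he
  have hsy : 0 < s + y := by linarith
  refine le_of_mul_le_mul_right ?_ hsy
  rw [hid, mul_assoc]
  refine mul_le_mul_of_nonneg_left ?_ hk.le
  have hsx : s ≤ 1 + x := by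
    by_contra hc
    push Not at hc
    nlinarith
  have f0 : s * y - y ^ 2 ≤ 2 * (k * w) := by
    have : s * y ≤ s ^ 2 := by nlinarith
    nlinarith
  have f1 : a + 3 ≤ (a + 3) * (s + y) := le_mul_of_one_le_right ha (by linarith)
  have f2 : d / 2 * (x - 1) * (s + y) ≤ d * x ^ 2 := by
    have g1 : (x - 1) * (s + y) ≤ 2 * x ^ 2 := by
      rcases le_total x 1 with h | h
      · nlinarith [mul_nonneg (sub_nonneg.2 h) hsy.le, sq_nonneg x]
      · have : (x - 1) * (s + y) ≤ (x - 1) * (2 * (1 + x)) :=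
          mul_le_mul_of_nonneg_left (by linarith) (by linarith)
        nlinarith
    have := mul_le_mul_of_nonneg_left g1 (show 0 ≤ d / 2 by linarith)
    nlinarith
  have f3 : ((a + 3) - d / 2 * (x - 1)) * (s + y)
      = (a + 3) * (s + y) - d / 2 * (x - 1) * (s + y) := by ring
  rw [f3]
  linarith


/-- `√(1+x²)` -/
noncomputable def s0 (x : ℝ) : ℝ := Real.sqrt (1 + x ^ 2)

theorem s0_sq (x : ℝ) : s0 x ^ 2 = 1 + x ^ 2 := Real.sq_sqrt (by positivity)

theorem s0_one (x : ℝ) : 1 ≤ s0 x := by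
  unfold s0
  exact Real.one_le_sqrt.2 (by nlinarith [sq_nonneg x])

theorem s0_pos (x : ℝ) : 0 < s0 x := lt_of_lt_of_le one_pos (s0_one x)

theorem s0_cont : Continuous s0 := by unfold s0; fun_prop

theorem Y_cont (κ : ℝ) : Continuous (Y κ) := by unfold Y; fun_prop

theorem exp_id (x : ℝ) : Real.exp (-x ^ 2) * Real.exp (x ^ 2) = 1 := by
  rw [← Real.exp_add, show -x ^ 2 + x ^ 2 = 0 by ring, Real.exp_zero]

noncomputable def gg (a c x : ℝ) : ℝ := Real.exp (-x ^ 2) * s0 x * (a + c * x ^ 2 + s0 x ^ 2)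

noncomputable def mm (a c X x : ℝ) : ℝ :=
  Real.exp (-x ^ 2) * Y (kp X) x * (a + c * x ^ 2 + Y (kp X) x ^ 2)

theorem gg_cont (a c : ℝ) : Continuous (gg a c) := by
  have := s0_cont
  unfold gg; fun_prop

theorem mm_cont (a c X : ℝ) : Continuous (mm a c X) := by
  have := Y_cont (kp X)
  unfold mm; fun_prop

theorem Y_facts {x X : ℝ} (hx : 0 ≤ x) (h : x ≤ X) :
    Y (kp X) x ^ 2 = 1 + x ^ 2 - kp X * Real.exp (x ^ 2) ∧ 0 ≤ Y (kp X) x ∧
      Y (kp X) x ≤ s0 x := by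
  refine ⟨?_, Real.sqrt_nonneg _, ?_⟩
  · unfold Y
    exact Real.sq_sqrt (by linarith [kle hx h])
  · unfold Y s0
    apply Real.sqrt_le_sqrt
    have := mul_pos (kp_pos X) (Real.exp_pos (x ^ 2))
    linarith

theorem lower_pt {a d x X : ℝ} (hx : 0 ≤ x) (h : x ≤ X) (ha : 0 ≤ a + 3) (hd : 0 ≤ d) :
    kp X * ((a + 3) / 2 * (s0 x)⁻¹ - d * x ^ 2 - 2 * (kp X * (Real.exp (x ^ 2) * (s0 x)⁻¹))) ≤
      gg a (-3 - d) x - mm a (-3 - d) X x := by
  obtain ⟨h1, h2, h3⟩ := Y_facts hx h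
  exact alg_lower (s0_sq x) (s0_one x) h1 (exp_id x) h2 h3 (inv_mul_cancel₀ (s0_pos x).ne')
    (kp_pos X) (Real.exp_pos _) ha hd

theorem upper_pt {a d x X : ℝ} (hx : 0 ≤ x) (h : x ≤ X) (ha : 0 ≤ a + 3) (hd : 0 ≤ d) :
    gg a (-3 - d) x - mm a (-3 - d) X x ≤ kp X * ((a + 3) - d / 2 * (x - 1)) := by
  obtain ⟨h1, h2, h3⟩ := Y_facts hx h
  exact alg_upper hx (s0_sq x) (s0_one x) h1 (exp_id x) h2 h3
    (kp_pos X) (Real.exp_pos _) ha hd

theorem phi_bound {x : ℝ} (hx : 0 ≤ x) :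
    Real.exp (x ^ 2) * (s0 x)⁻¹ ≤ 4 * x ^ 3 * Real.exp (x ^ 2) / (1 + x ^ 2) ^ 2 + 3 := by
  have hw := Real.exp_pos (x ^ 2)
  have hs := s0_one x
  have hs2 := s0_sq x
  have ht : (s0 x)⁻¹ ≤ 1 := inv_le_one_of_one_le₀ hs
  have ht0 : 0 < (s0 x)⁻¹ := inv_pos.2 (s0_pos x)
  rcases le_total x 1 with h | h
  · have h1 : Real.exp (x ^ 2) ≤ 3 := by
      have : Real.exp (x ^ 2) ≤ Real.exp 1 := Real.exp_le_exp.2 (by nlinarith)
      have := Real.exp_one_lt_d9
      linarith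
    have h2 : Real.exp (x ^ 2) * (s0 x)⁻¹ ≤ 3 := by
      calc Real.exp (x ^ 2) * (s0 x)⁻¹ ≤ 3 * 1 :=
            mul_le_mul h1 ht ht0.le (by norm_num)
        _ = 3 := by norm_num
    have h3 : 0 ≤ 4 * x ^ 3 * Real.exp (x ^ 2) / (1 + x ^ 2) ^ 2 := by positivity
    linarith
  · have h1 : (s0 x)⁻¹ ≤ 4 * x ^ 3 / (1 + x ^ 2) ^ 2 := by
      rw [le_div_iff₀ (by positivity), ← s0_sq x]
      have e1 : (s0 x)⁻¹ * (s0 x ^ 2) ^ 2 = s0 x ^ 3 := by
        have := s0_pos x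
        field_simp
      rw [e1]
      have e2 : s0 x ≤ 3 / 2 * x := by
        by_contra hc
        push Not at hc
        nlinarith
      calc s0 x ^ 3 ≤ (3 / 2 * x) ^ 3 := pow_le_pow_left₀ (s0_pos x).le e2 3
        _ = 27 / 8 * x ^ 3 := by ring
        _ ≤ 4 * x ^ 3 := by
            have : 0 ≤ x ^ 3 := by positivity
            linarith
    have h2 := mul_le_mul_of_nonneg_left h1 hw.le
    have h3 : Real.exp (x ^ 2) * (4 * x ^ 3 / (1 + x ^ 2) ^ 2)
        = 4 * x ^ 3 * Real.exp (x ^ 2) / (1 + x ^ 2) ^ 2 := by ring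
    linarith

/-- the antiderivative of the lower bound -/
noncomputable def Lam (a d k x : ℝ) : ℝ :=
  k * ((a + 3) / 2 * Real.arsinh x - d * x ^ 3 / 3
    - 2 * k * (2 * Real.exp (x ^ 2) / (1 + x ^ 2) + 3 * x))

noncomputable def lam (a d k x : ℝ) : ℝ :=
  k * ((a + 3) / 2 * (s0 x)⁻¹ - d * x ^ 2
    - 2 * k * (4 * x ^ 3 * Real.exp (x ^ 2) / (1 + x ^ 2) ^ 2 + 3))

theorem lam_cont (a d k : ℝ) : Continuous (lam a d k) := by
  have h0 := s0_cont
  have h1 : ∀ x : ℝ, s0 x ≠ 0 := fun x => (s0_pos x).ne'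
  have h2 : ∀ x : ℝ, (1 + x ^ 2) ^ 2 ≠ 0 := fun x => by positivity
  unfold lam
  have h3 : Continuous fun x => (s0 x)⁻¹ := h0.inv₀ h1
  have h4 : Continuous fun x : ℝ => 4 * x ^ 3 * Real.exp (x ^ 2) / (1 + x ^ 2) ^ 2 :=
    Continuous.div (by fun_prop) (by fun_prop) h2
  fun_prop

theorem Lam_deriv (a d k x : ℝ) : HasDerivAt (Lam a d k) (lam a d k x) x := by
  have h1 : HasDerivAt (fun x : ℝ => x ^ 2) (2 * x) x := by simpa using hasDerivAt_pow 2 x
  have h2 : HasDerivAt (fun x : ℝ => x ^ 3) (3 * x ^ 2) x := by simpa using hasDerivAt_pow 3 x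
  have h3 : HasDerivAt (fun x : ℝ => Real.exp (x ^ 2)) (Real.exp (x ^ 2) * (2 * x)) x := h1.exp
  have h4 : HasDerivAt (fun x : ℝ => 1 + x ^ 2) (2 * x) x := by simpa using h1.const_add 1
  have h5 := (h3.const_mul 2).div h4 (show (1 + x ^ 2 : ℝ) ≠ 0 by positivity)
  have h6 : HasDerivAt Real.arsinh (s0 x)⁻¹ x := Real.hasDerivAt_arsinh x
  have h7 := (((h6.const_mul ((a + 3) / 2)).sub ((h2.const_mul d).div_const 3)).sub
    ((h5.add ((hasDerivAt_id x).const_mul 3)).const_mul (2 * k))).const_mul k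
  refine (show HasDerivAt (Lam a d k) _ x from h7).congr_deriv ?_
  unfold lam
  have : (1 + x ^ 2 : ℝ) ≠ 0 := by positivity
  have e1 : (2 * (Real.exp (x ^ 2) * (2 * x)) * (1 + x ^ 2) - 2 * Real.exp (x ^ 2) * (2 * x))
      / (1 + x ^ 2) ^ 2 = 4 * x ^ 3 * Real.exp (x ^ 2) / (1 + x ^ 2) ^ 2 := by
    congr 1
    ring
  rw [e1]
  ring

theorem Gm_lower {a d X : ℝ} (hX : 0 ≤ X) (ha : 0 ≤ a + 3) (hd : 0 ≤ d) :
    kp X * ((a + 3) / 2 * Real.arsinh X - d * X ^ 3 - 16) ≤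
      (∫ x in (0:ℝ)..X, gg a (-3 - d) x) - Mel a (-3 - d) X := by
  have h1 : (∫ x in (0:ℝ)..X, gg a (-3 - d) x) - Mel a (-3 - d) X
      = ∫ x in (0:ℝ)..X, (gg a (-3 - d) x - mm a (-3 - d) X x) := by
    rw [intervalIntegral.integral_sub ((gg_cont _ _).intervalIntegrable _ _)
      ((mm_cont _ _ _).intervalIntegrable _ _)]
    rfl
  have h2 : ∫ x in (0:ℝ)..X, lam a d (kp X) x = Lam a d (kp X) X - Lam a d (kp X) 0 :=
    intervalIntegral.integral_eq_sub_of_hasDerivAt (fun x _ => Lam_deriv a d (kp X) x)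
      ((lam_cont _ _ _).intervalIntegrable _ _)
  have h3 : ∫ x in (0:ℝ)..X, lam a d (kp X) x
      ≤ ∫ x in (0:ℝ)..X, (gg a (-3 - d) x - mm a (-3 - d) X x) := by
    refine intervalIntegral.integral_mono_on hX ((lam_cont _ _ _).intervalIntegrable _ _)
      (((gg_cont _ _).sub (mm_cont _ _ _)).intervalIntegrable _ _) fun x hx => ?_
    refine le_trans ?_ (lower_pt hx.1 hx.2 ha hd)
    unfold lam
    have hk := kp_pos X
    refine mul_le_mul_of_nonneg_left ?_ hk.le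
    have := mul_le_mul_of_nonneg_left (phi_bound hx.1) (show 0 ≤ 2 * kp X by linarith)
    linarith
  rw [h1]
  refine le_trans ?_ h3
  rw [h2]
  unfold Lam
  have hk := kp_pos X
  have hkX := kX hX
  have hke := keq X
  have h4 : kp X * (2 * Real.exp (X ^ 2) / (1 + X ^ 2)) = 2 := by
    have : (1 + X ^ 2 : ℝ) ≠ 0 := by positivity
    field_simp
    linarith
  have h5 : Real.arsinh 0 = 0 := Real.arsinh_zero
  rw [h5]
  have h6 : Real.exp (0 ^ 2) = 1 := by norm_num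
  rw [h6]
  have hX3 : 0 ≤ d * X ^ 3 := by positivity
  have e1 : kp X * ((a + 3) / 2 * Real.arsinh X - d * X ^ 3 / 3
      - 2 * kp X * (2 * Real.exp (X ^ 2) / (1 + X ^ 2) + 3 * X))
      - kp X * ((a + 3) / 2 * 0 - d * 0 ^ 3 / 3 - 2 * kp X * (2 * 1 / (1 + 0 ^ 2) + 3 * 0))
      = kp X * ((a + 3) / 2 * Real.arsinh X - d * X ^ 3 / 3 - 2 * 2 - 6 * (kp X * X)
        + 4 * kp X) := by
    linear_combination (-2) * kp X * h4
  rw [e1]
  refine mul_le_mul_of_nonneg_left ?_ hk.le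
  linarith

theorem Gm_upper {a d X : ℝ} (hX : 0 ≤ X) (ha : 0 ≤ a + 3) (hd : 0 ≤ d) :
    (∫ x in (0:ℝ)..X, gg a (-3 - d) x) - Mel a (-3 - d) X ≤
      kp X * ((a + 3) * X - d / 2 * (X ^ 2 / 2 - X)) := by
  have h1 : (∫ x in (0:ℝ)..X, gg a (-3 - d) x) - Mel a (-3 - d) X
      = ∫ x in (0:ℝ)..X, (gg a (-3 - d) x - mm a (-3 - d) X x) := by
    rw [intervalIntegral.integral_sub ((gg_cont _ _).intervalIntegrable _ _)
      ((mm_cont _ _ _).intervalIntegrable _ _)]
    rfl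
  have hder : ∀ x : ℝ, HasDerivAt (fun x : ℝ => kp X * ((a + 3) * x - d / 2 * (x ^ 2 / 2 - x)))
      (kp X * ((a + 3) - d / 2 * (x - 1))) x := by
    intro x
    have h1 : HasDerivAt (fun x : ℝ => x ^ 2) (2 * x) x := by simpa using hasDerivAt_pow 2 x
    have h2 := (((hasDerivAt_id x).const_mul (a + 3)).sub
      (((h1.div_const 2).sub (hasDerivAt_id x)).const_mul (d / 2))).const_mul (kp X)
    refine (show HasDerivAt (fun x : ℝ => kp X * ((a + 3) * x - d / 2 * (x ^ 2 / 2 - x))) _ x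
      from h2).congr_deriv ?_
    ring
  have h2 : ∫ x in (0:ℝ)..X, kp X * ((a + 3) - d / 2 * (x - 1))
      = kp X * ((a + 3) * X - d / 2 * (X ^ 2 / 2 - X))
        - kp X * ((a + 3) * 0 - d / 2 * (0 ^ 2 / 2 - 0)) :=
    intervalIntegral.integral_eq_sub_of_hasDerivAt (fun x _ => hder x)
      ((by fun_prop : Continuous fun x : ℝ =>
        kp X * ((a + 3) - d / 2 * (x - 1))).intervalIntegrable _ _)
  rw [h1]
  have h3 : ∫ x in (0:ℝ)..X, (gg a (-3 - d) x - mm a (-3 - d) X x)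
      ≤ ∫ x in (0:ℝ)..X, kp X * ((a + 3) - d / 2 * (x - 1)) := by
    refine intervalIntegral.integral_mono_on hX
      (((gg_cont _ _).sub (mm_cont _ _ _)).intervalIntegrable _ _)
      ((by fun_prop : Continuous fun x : ℝ =>
        kp X * ((a + 3) - d / 2 * (x - 1))).intervalIntegrable _ _)
      fun x hx => upper_pt hx.1 hx.2 ha hd
  rw [h2] at h3
  refine h3.trans (le_of_eq ?_)
  ring

theorem gg_eq (a d x : ℝ) : gg a (-3 - d) x
    = Real.exp (-x ^ 2) * s0 x * (a + 1 - (2 + d) * x ^ 2) := by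
  unfold gg
  rw [s0_sq]
  ring

theorem tail_lower {a d X N : ℝ} (hX : 1 ≤ X) (hN : X ≤ N) (ha : 0 ≤ a + 1) (hd : 0 ≤ d) :
    -((2 + d) * kp X) ≤ ∫ x in X..N, gg a (-3 - d) x := by
  have hder : ∀ x : ℝ, HasDerivAt (fun x : ℝ => (2 + d) * kp x)
      (-((2 + d) * (2 * x ^ 3 * Real.exp (-x ^ 2)))) x := by
    intro x
    have h1 : HasDerivAt (fun x : ℝ => x ^ 2) (2 * x) x := by simpa using hasDerivAt_pow 2 x
    have h3 := (h1.neg.exp.mul (h1.const_add 1)).const_mul (2 + d)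
    refine (show HasDerivAt (fun x : ℝ => (2 + d) * kp x) _ x from h3).congr_deriv ?_
    simp only [Pi.neg_apply]
    ring
  have hc : Continuous fun x : ℝ => -((2 + d) * (2 * x ^ 3 * Real.exp (-x ^ 2))) := by fun_prop
  have h2 := intervalIntegral.integral_eq_sub_of_hasDerivAt (a := X) (b := N)
    (fun x _ => hder x) (hc.intervalIntegrable _ _)
  have h3 : ∫ x in X..N, -((2 + d) * (2 * x ^ 3 * Real.exp (-x ^ 2)))
      ≤ ∫ x in X..N, gg a (-3 - d) x := by
    refine intervalIntegral.integral_mono_on hN (hc.intervalIntegrable _ _)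
      ((gg_cont _ _).intervalIntegrable _ _) fun x hx => ?_
    have hx1 : 1 ≤ x := hX.trans hx.1
    have hE := Real.exp_pos (-x ^ 2)
    have hs := s0_pos x
    have hs2 : s0 x ≤ 2 * x := by
      have := s0_sq x
      by_contra hc
      push Not at hc
      nlinarith
    rw [gg_eq]
    have e1 : Real.exp (-x ^ 2) * s0 x * (a + 1 - (2 + d) * x ^ 2)
        ≥ -((2 + d) * (x ^ 2 * (Real.exp (-x ^ 2) * s0 x))) := by
      have := mul_nonneg (mul_pos hE hs).le ha
      nlinarith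
    have e2 : x ^ 2 * (Real.exp (-x ^ 2) * s0 x) ≤ 2 * x ^ 3 * Real.exp (-x ^ 2) := by
      have := mul_le_mul_of_nonneg_left hs2 (mul_nonneg (sq_nonneg x) hE.le)
      nlinarith
    have e3 := mul_le_mul_of_nonneg_left e2 (show 0 ≤ 2 + d by linarith)
    linarith
  have h4 := mul_pos (show 0 < 2 + d by linarith) (kp_pos N)
  linarith

theorem tail_upper {a d X N : ℝ} (hX : 1 ≤ X) (hN : X ≤ N) (hd : 0 ≤ d)
    (h : a + 1 ≤ (2 + d) * X ^ 2) :
    ∫ x in X..N, gg a (-3 - d) x ≤ 0 := by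
  have h3 : ∫ x in X..N, gg a (-3 - d) x ≤ ∫ x in X..N, (0:ℝ) := by
    refine intervalIntegral.integral_mono_on hN
      ((gg_cont _ _).intervalIntegrable _ _) (by simp) fun x hx => ?_
    rw [gg_eq]
    have hx0 : X ^ 2 ≤ x ^ 2 := pow_le_pow_left₀ (by linarith) hx.1 2
    have := mul_le_mul_of_nonneg_left hx0 (show 0 ≤ 2 + d by linarith)
    have h5 : a + 1 - (2 + d) * x ^ 2 ≤ 0 := by linarith
    exact mul_nonpos_of_nonneg_of_nonpos (mul_pos (Real.exp_pos _) (s0_pos x)).le h5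
  simpa using h3

noncomputable def h0 (x : ℝ) : ℝ := Real.exp (-x ^ 2) * s0 x
noncomputable def h1 (x : ℝ) : ℝ := Real.exp (-x ^ 2) * s0 x * x ^ 2
noncomputable def h3 (x : ℝ) : ℝ := Real.exp (-x ^ 2) * s0 x * s0 x ^ 2

theorem h0_cont : Continuous h0 := by have := s0_cont; unfold h0; fun_prop
theorem h1_cont : Continuous h1 := by have := s0_cont; unfold h1; fun_prop
theorem h3_cont : Continuous h3 := by have := s0_cont; unfold h3; fun_prop

theorem dom_int : Integrable fun x : ℝ => Real.exp (-x ^ 2) * (1 + x ^ 2) ^ 2 := by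
  have e0 := integrable_exp_neg_mul_sq (b := 1) one_pos
  have e2 := integrable_rpow_mul_exp_neg_mul_sq (b := 1) one_pos (s := 2) (by norm_num)
  have e4 := integrable_rpow_mul_exp_neg_mul_sq (b := 1) one_pos (s := 4) (by norm_num)
  refine ((e0.add (e2.const_mul 2)).add e4).congr (Filter.Eventually.of_forall fun x => ?_)
  have r2 : x ^ (2:ℝ) = x ^ 2 := by exact_mod_cast Real.rpow_natCast x 2
  have r4 : x ^ (4:ℝ) = x ^ 4 := by exact_mod_cast Real.rpow_natCast x 4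
  simp only [Pi.add_apply]
  rw [r2, r4, neg_one_mul]
  ring

theorem s0_le (x : ℝ) : s0 x ≤ 1 + x ^ 2 := by
  have := s0_sq x
  have := s0_one x
  nlinarith

theorem int_of_dom {h : ℝ → ℝ} (hc : Continuous h)
    (hb : ∀ x, |h x| ≤ Real.exp (-x ^ 2) * (1 + x ^ 2) ^ 2) : Integrable h :=
  dom_int.mono' hc.aestronglyMeasurable (Filter.Eventually.of_forall fun x => by
    rw [Real.norm_eq_abs]; exact hb x)

theorem h0_int : Integrable h0 := by
  refine int_of_dom h0_cont fun x => ?_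
  have hE := Real.exp_pos (-x ^ 2)
  have hs := s0_pos x
  have e : 0 ≤ h0 x := (mul_pos hE hs).le
  rw [abs_of_nonneg e]
  unfold h0
  refine mul_le_mul_of_nonneg_left ?_ hE.le
  have := s0_le x
  nlinarith [sq_nonneg x, sq_nonneg (x ^ 2)]

theorem h1_int : Integrable h1 := by
  refine int_of_dom h1_cont fun x => ?_
  have hE := Real.exp_pos (-x ^ 2)
  have hs := s0_pos x
  have e : 0 ≤ h1 x := mul_nonneg (mul_pos hE hs).le (sq_nonneg x)
  rw [abs_of_nonneg e]
  unfold h1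
  rw [mul_assoc]
  refine mul_le_mul_of_nonneg_left ?_ hE.le
  have := mul_le_mul_of_nonneg_right (s0_le x) (sq_nonneg x)
  nlinarith [sq_nonneg x, sq_nonneg (x ^ 2)]

theorem h3_int : Integrable h3 := by
  refine int_of_dom h3_cont fun x => ?_
  have hE := Real.exp_pos (-x ^ 2)
  have hs := s0_pos x
  have e : 0 ≤ h3 x := mul_nonneg (mul_pos hE hs).le (sq_nonneg _)
  rw [abs_of_nonneg e]
  unfold h3
  rw [mul_assoc]
  refine mul_le_mul_of_nonneg_left ?_ hE.le
  have h := mul_le_mul_of_nonneg_right (s0_le x) (sq_nonneg (s0 x))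
  rw [s0_sq] at h ⊢
  nlinarith

theorem gg_lin (a c x : ℝ) : gg a c x = a * h0 x + c * h1 x + h3 x := by
  unfold gg h0 h1 h3; ring

theorem exists_lim : ∃ L0 L1 L3 : ℝ,
    Tendsto (fun N : ℝ => ∫ x in (0:ℝ)..N, h0 x) atTop (𝓝 L0) ∧
    ∀ a c : ℝ, Tendsto (fun N : ℝ => ∫ x in (0:ℝ)..N, gg a c x) atTop
      (𝓝 (a * L0 + c * L1 + L3)) := by
  have t0 := intervalIntegral_tendsto_integral_Ioi (μ := volume) 0 h0_int.integrableOn
    (tendsto_id (α := ℝ) (x := atTop))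
  have t1 := intervalIntegral_tendsto_integral_Ioi (μ := volume) 0 h1_int.integrableOn
    (tendsto_id (α := ℝ) (x := atTop))
  have t3 := intervalIntegral_tendsto_integral_Ioi (μ := volume) 0 h3_int.integrableOn
    (tendsto_id (α := ℝ) (x := atTop))
  refine ⟨∫ x in Ioi (0:ℝ), h0 x, ∫ x in Ioi (0:ℝ), h1 x, ∫ x in Ioi (0:ℝ), h3 x, t0,
    fun a c => ?_⟩
  refine (((t0.const_mul a).add (t1.const_mul c)).add t3).congr fun N => ?_
  have e : ∀ x, gg a c x = a * h0 x + c * h1 x + h3 x := gg_lin a c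
  simp only [id]
  rw [intervalIntegral.integral_congr (g := fun x => a * h0 x + c * h1 x + h3 x)
    (fun x _ => e x), intervalIntegral.integral_add, intervalIntegral.integral_add,
    intervalIntegral.integral_const_mul, intervalIntegral.integral_const_mul]
  · exact (h0_cont.intervalIntegrable _ _).const_mul a
  · exact (h1_cont.intervalIntegrable _ _).const_mul c
  · exact ((h0_cont.intervalIntegrable _ _).const_mul a).add
      ((h1_cont.intervalIntegrable _ _).const_mul c)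
  · exact h3_cont.intervalIntegrable _ _

theorem L0_pos {L0 : ℝ} (h : Tendsto (fun N : ℝ => ∫ x in (0:ℝ)..N, h0 x) atTop (𝓝 L0)) :
    0 < L0 := by
  have hp : ∀ x, 0 < h0 x := fun x => mul_pos (Real.exp_pos _) (s0_pos x)
  have h1 : 0 < ∫ x in (0:ℝ)..1, h0 x :=
    intervalIntegral.intervalIntegral_pos_of_pos_on (h0_cont.intervalIntegrable _ _)
      (fun x _ => hp x) one_pos
  refine lt_of_lt_of_le h1 (ge_of_tendsto h ?_)
  filter_upwards [eventually_ge_atTop (1:ℝ)] with N hN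
  have h2 := intervalIntegral.integral_add_adjacent_intervals (μ := volume)
    (h0_cont.intervalIntegrable 0 1) (h0_cont.intervalIntegrable 1 N)
  have h3 : 0 ≤ ∫ x in (1:ℝ)..N, h0 x :=
    intervalIntegral.integral_nonneg hN fun x _ => (hp x).le
  linarith

theorem kp_tend : Tendsto kp atTop (𝓝 0) := by
  have h : Tendsto (fun X : ℝ => 2 / X) atTop (𝓝 0) :=
    Tendsto.div_atTop tendsto_const_nhds tendsto_id
  refine tendsto_of_tendsto_of_tendsto_of_le_of_le' tendsto_const_nhds h ?_ ?_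
  · exact Filter.Eventually.of_forall fun X => (kp_pos X).le
  · filter_upwards [eventually_gt_atTop (0:ℝ)] with X hX
    rw [le_div_iff₀ hX]
    exact kX hX.le

theorem L03_neg {L : ℝ} (h : Tendsto (fun N : ℝ => ∫ x in (0:ℝ)..N, gg 0 (-3) x) atTop (𝓝 L)) :
    L < 0 := by
  have hc : Continuous fun x : ℝ => x ^ 2 * Real.exp (-x ^ 2) * (s0 x)⁻¹ := by
    have : Continuous fun x => (s0 x)⁻¹ := s0_cont.inv₀ fun x => (s0_pos x).ne'
    fun_prop
  have hd : 0 < ∫ x in (0:ℝ)..1, x ^ 2 * Real.exp (-x ^ 2) * (s0 x)⁻¹ :=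
    intervalIntegral.intervalIntegral_pos_of_pos_on (hc.intervalIntegrable _ _)
      (fun x hx => by
        have := s0_pos x
        have := hx.1
        positivity) one_pos
  have hder : ∀ x : ℝ, HasDerivAt (fun x : ℝ => x * (Real.exp (-x ^ 2) * s0 x))
      (gg 0 (-3) x + x ^ 2 * Real.exp (-x ^ 2) * (s0 x)⁻¹) x := by
    intro x
    have e1 : HasDerivAt (fun x : ℝ => x ^ 2) (2 * x) x := by simpa using hasDerivAt_pow 2 x
    have e2 : HasDerivAt s0 ((2 * x) / (2 * s0 x)) x := by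
      have := (e1.const_add 1).sqrt (show (1 + x ^ 2 : ℝ) ≠ 0 by positivity)
      exact this
    have e3 := (hasDerivAt_id x).mul (e1.neg.exp.mul e2)
    refine (show HasDerivAt (fun x : ℝ => x * (Real.exp (-x ^ 2) * s0 x)) _ x
      from e3).congr_deriv ?_
    have hs := (s0_pos x).ne'
    unfold gg
    rw [s0_sq]
    simp only [id, Pi.neg_apply, Pi.mul_apply]
    field_simp
    rw [s0_sq]
    ring
  have hb : ∀ N : ℝ, 1 ≤ N → (∫ x in (0:ℝ)..N, gg 0 (-3) x) ≤
      kp N - ∫ x in (0:ℝ)..1, x ^ 2 * Real.exp (-x ^ 2) * (s0 x)⁻¹ := by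
    intro N hN
    have h1 := intervalIntegral.integral_eq_sub_of_hasDerivAt (a := 0) (b := N)
      (fun x _ => hder x) (((gg_cont _ _).add hc).intervalIntegrable _ _)
    rw [intervalIntegral.integral_add ((gg_cont _ _).intervalIntegrable _ _)
      (hc.intervalIntegrable _ _)] at h1
    have h2 := intervalIntegral.integral_add_adjacent_intervals (μ := volume)
      (hc.intervalIntegrable 0 1) (hc.intervalIntegrable 1 N)
    have h3 : 0 ≤ ∫ x in (1:ℝ)..N, x ^ 2 * Real.exp (-x ^ 2) * (s0 x)⁻¹ :=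
      intervalIntegral.integral_nonneg hN fun x _ => by
        have := s0_pos x
        positivity
    have h4 : N * (Real.exp (-N ^ 2) * s0 N) ≤ kp N := by
      unfold kp
      have e1 : N * s0 N ≤ 1 + N ^ 2 := by nlinarith [s0_sq N, sq_nonneg (N - s0 N)]
      have := mul_le_mul_of_nonneg_left e1 (Real.exp_pos (-N ^ 2)).le
      linarith
    linarith
  have h5 : L ≤ 0 - ∫ x in (0:ℝ)..1, x ^ 2 * Real.exp (-x ^ 2) * (s0 x)⁻¹ := by
    refine le_of_tendsto_of_tendsto h (kp_tend.sub_const _) ?_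
    filter_upwards [eventually_ge_atTop (1:ℝ)] with N hN using hb N hN
  linarith

theorem L_lower {a d X L : ℝ} (h : Tendsto (fun N : ℝ => ∫ x in (0:ℝ)..N, gg a (-3 - d) x) atTop
    (𝓝 L)) (hX : 1 ≤ X) (ha : 0 ≤ a + 1) (hd : 0 ≤ d) :
    kp X * ((a + 3) / 2 * Real.arsinh X - d * X ^ 3 - 18 - d) ≤ L - Mel a (-3 - d) X := by
  have h1 := Gm_lower (a := a) (d := d) (X := X) (by linarith) (by linarith) hd
  have h2 : (∫ x in (0:ℝ)..X, gg a (-3 - d) x) - (2 + d) * kp X ≤ L := by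
    refine ge_of_tendsto h ?_
    filter_upwards [eventually_ge_atTop X] with N hN
    have h3 := tail_lower hX hN ha hd
    have h4 := intervalIntegral.integral_add_adjacent_intervals (μ := volume)
      ((gg_cont a (-3 - d)).intervalIntegrable 0 X) ((gg_cont a (-3 - d)).intervalIntegrable X N)
    linarith
  linarith

theorem L_upper {a d X L : ℝ} (h : Tendsto (fun N : ℝ => ∫ x in (0:ℝ)..N, gg a (-3 - d) x) atTop
    (𝓝 L)) (hX : 1 ≤ X) (ha : 0 ≤ a + 1) (hd : 0 ≤ d) (hh : a + 1 ≤ (2 + d) * X ^ 2) :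
    L - Mel a (-3 - d) X ≤ kp X * ((a + 3) * X - d / 2 * (X ^ 2 / 2 - X)) := by
  have h1 := Gm_upper (a := a) (d := d) (X := X) (by linarith) (by linarith) hd
  have h2 : L ≤ ∫ x in (0:ℝ)..X, gg a (-3 - d) x := by
    refine le_of_tendsto h ?_
    filter_upwards [eventually_ge_atTop X] with N hN
    have h3 := tail_upper hX hN hd hh
    have h4 := intervalIntegral.integral_add_adjacent_intervals (μ := volume)
      ((gg_cont a (-3 - d)).intervalIntegrable 0 X) ((gg_cont a (-3 - d)).intervalIntegrable X N)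
    linarith
  linarith

theorem small {p q : ℝ} (hp : p < 0) : ∃ ε > 0, ∀ t, 0 < t → t ≤ ε → p + t * q < 0 := by
  refine ⟨-p / (2 * (|q| + 1)), by have := abs_nonneg q; apply div_pos <;> linarith, ?_⟩
  intro t ht h
  have hq := abs_nonneg q
  rw [le_div_iff₀ (by positivity)] at h
  have h1 : t * q ≤ t * |q| := mul_le_mul_of_nonneg_left (le_abs_self q) ht.le
  nlinarith

theorem Mel_lin (X : ℝ) : ∃ A0 A1 A3 : ℝ, ∀ a c, Mel a c X = a * A0 + c * A1 + A3 := by
  have hY := Y_cont (kp X)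
  have c0 : Continuous fun x : ℝ => Real.exp (-x ^ 2) * Y (kp X) x := by fun_prop
  have c1 : Continuous fun x : ℝ => Real.exp (-x ^ 2) * Y (kp X) x * x ^ 2 := by fun_prop
  have c3 : Continuous fun x : ℝ => Real.exp (-x ^ 2) * Y (kp X) x * Y (kp X) x ^ 2 := by
    fun_prop
  refine ⟨∫ x in (0:ℝ)..X, Real.exp (-x ^ 2) * Y (kp X) x,
    ∫ x in (0:ℝ)..X, Real.exp (-x ^ 2) * Y (kp X) x * x ^ 2,
    ∫ x in (0:ℝ)..X, Real.exp (-x ^ 2) * Y (kp X) x * Y (kp X) x ^ 2, fun a c => ?_⟩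
  unfold Mel
  have d0 : Continuous fun x : ℝ => a * (Real.exp (-x ^ 2) * Y (kp X) x) := by fun_prop
  have d1 : Continuous fun x : ℝ => c * (Real.exp (-x ^ 2) * Y (kp X) x * x ^ 2) := by fun_prop
  have d2 : Continuous fun x : ℝ => a * (Real.exp (-x ^ 2) * Y (kp X) x)
    + c * (Real.exp (-x ^ 2) * Y (kp X) x * x ^ 2) := by fun_prop
  rw [← intervalIntegral.integral_const_mul, ← intervalIntegral.integral_const_mul,
    ← intervalIntegral.integral_add (d0.intervalIntegrable _ _) (d1.intervalIntegrable _ _),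
    ← intervalIntegral.integral_add (d2.intervalIntegrable _ _) (c3.intervalIntegrable _ _)]
  refine intervalIntegral.integral_congr fun x _ => ?_
  ring

theorem Mel_pos {a d X : ℝ} (hX : 0 < X) (hd : 0 ≤ d) (h : (3 + d) * X ^ 2 ≤ a) :
    0 < Mel a (-3 - d) X := by
  refine intervalIntegral.intervalIntegral_pos_of_pos_on
    ((mm_cont a (-3 - d) X).intervalIntegrable _ _) (fun x hx => ?_) hX
  have h1 : 0 < Y (kp X) x := by
    unfold Y
    apply Real.sqrt_pos.2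
    have := kle' hx.1.le hx.2
    linarith
  have h2 : x ^ 2 ≤ X ^ 2 := pow_le_pow_left₀ hx.1.le hx.2.le 2
  have h3 := mul_le_mul_of_nonneg_left h2 (show 0 ≤ 3 + d by linarith)
  have h4 : 0 < a + (-3 - d) * x ^ 2 + Y (kp X) x ^ 2 := by
    have := pow_pos h1 2
    linarith
  exact mul_pos (mul_pos (Real.exp_pos _) h1) h4

theorem last_step {a d X q L : ℝ}
    (h : Tendsto (fun N : ℝ => ∫ x in (0:ℝ)..N, gg a (-3 - d) x) atTop (𝓝 L))
    (ha : 0 ≤ a + 1) (hd : 0 ≤ d) (hq : 0 < q) (hL : L = -q) (hX : 1 ≤ X)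
    (hX' : (2 * d + 18) * 48 / q < X) : Mel a (-3 - d) X < 0 := by
  have h1 := L_lower h hX ha hd
  have hk := kp_pos X
  have hk3 := kX3 hX
  have har : 0 ≤ Real.arsinh X := Real.arsinh_nonneg_iff.2 (by linarith only [hX])
  have h2 : 0 ≤ (a + 3) / 2 * Real.arsinh X := mul_nonneg (by linarith only [ha]) har
  have hX3 : 1 ≤ X ^ 3 := one_le_pow₀ hX
  have h3 : -(kp X * ((2 * d + 18) * X ^ 3))
      ≤ kp X * ((a + 3) / 2 * Real.arsinh X - d * X ^ 3 - 18 - d) := by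
    rw [← mul_neg]
    refine mul_le_mul_of_nonneg_left ?_ hk.le
    have e1 : (d + 18) * 1 ≤ (d + 18) * X ^ 3 :=
      mul_le_mul_of_nonneg_left hX3 (by linarith only [hd])
    have e2 : (2 * d + 18) * X ^ 3 = d * X ^ 3 + (d + 18) * X ^ 3 := by ring
    linarith only [e1, e2, h2]
  have h4 : kp X * ((2 * d + 18) * X ^ 3) ≤ (2 * d + 18) * 48 / X := by
    have e1 := mul_le_mul_of_nonneg_left hk3 (show 0 ≤ 2 * d + 18 by linarith only [hd])
    have e2 : (2 * d + 18) * (48 / X) = (2 * d + 18) * 48 / X := by ring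
    have e3 : (2 * d + 18) * (kp X * X ^ 3) = kp X * ((2 * d + 18) * X ^ 3) := by ring
    linarith only [e1, e2, e3]
  have h5 : (2 * d + 18) * 48 / X < q := by
    have h0 : 0 < X := by linarith only [hX]
    rw [div_lt_iff₀ hq] at hX'
    rw [div_lt_iff₀ h0]
    linarith only [hX']
  linarith only [h1, h3, h4, h5, hL]

theorem signs : ∃ a c X1 X2 X3 X4 : ℝ, 0 < X1 ∧ X1 < X2 ∧ X2 < X3 ∧ X3 < X4 ∧
    0 < Mel a c X1 ∧ Mel a c X2 < 0 ∧ 0 < Mel a c X3 ∧ Mel a c X4 < 0 := by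
  obtain ⟨L0, L1, L3, hL0, hL⟩ := exists_lim
  have hp0 : 0 < L0 := L0_pos hL0
  have hn : 0 * L0 + (-3) * L1 + L3 < 0 := L03_neg (hL 0 (-3))
  -- the first step
  set a0 : ℝ := (3 * L1 - L3) / L0 with ha0
  have ha0p : 0 < a0 := div_pos (by linarith) hp0
  have ha0e : a0 * L0 = 3 * L1 - L3 := div_mul_cancel₀ _ hp0.ne'
  set X2 : ℝ := Real.sinh 13 with hX2
  have hX21 : 13 ≤ X2 := Real.self_le_sinh_iff.2 (by norm_num)
  have hM2 : Mel a0 (-3 - 0) X2 < 0 := by
    have h := L_lower (a := a0) (d := 0) (X := X2) (hL a0 (-3 - 0)) (by linarith) (by linarith)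
      le_rfl
    rw [hX2, Real.arsinh_sinh, ← hX2] at h
    have e : a0 * L0 + (-3 - 0) * L1 + L3 = 0 := by linarith
    rw [e] at h
    have hk := kp_pos X2
    have h5 : 0 < kp X2 * ((a0 + 3) / 2 * 13 - 0 * X2 ^ 3 - 18 - 0) :=
      mul_pos hk (by linarith only [ha0p])
    have h6 := lt_of_lt_of_le h5 h
    linarith only [h6]
  -- the second step
  set r : ℝ := L1 / L0 with hr
  have hre : r * L0 = L1 := div_mul_cancel₀ _ hp0.ne'
  obtain ⟨A0, A1, A3, hA⟩ := Mel_lin X2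
  obtain ⟨e1, he1, hs1⟩ := small (q := r * A0 - A1) hM2
  obtain ⟨e2, he2, hs2⟩ := small (p := -a0) (q := -r) (by linarith)
  set d : ℝ := min e1 e2 with hd
  have hd0 : 0 < d := lt_min he1 he2
  have hM2' := hs1 d hd0 (min_le_left _ _)
  have had := hs2 d hd0 (min_le_right _ _)
  set a : ℝ := a0 + d * r with ha
  have hap : 0 < a := by linarith
  have hM2a : Mel a (-3 - d) X2 < 0 := by
    rw [hA] at hM2' ⊢
    have : a * A0 + (-3 - d) * A1 + A3 = a0 * A0 + (-3 - 0) * A1 + A3 + d * (r * A0 - A1) := by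
      rw [ha]; ring
    linarith
  have hLa : a * L0 + (-3 - d) * L1 + L3 = 0 := by
    have : a * L0 = a0 * L0 + d * (r * L0) := by rw [ha]; ring
    rw [hre] at this
    linarith
  -- X3
  set X3 : ℝ := X2 + 4 * (a + 3) / d + 2 + (a + 1) with hX3
  have hq : 0 < 4 * (a + 3) / d := by positivity
  have hX31 : 13 ≤ X3 := by linarith
  have hX32 : a + 1 ≤ X3 := by linarith
  have hX33 : 4 * (a + 3) / d + 2 < X3 := by linarith
  have hM3 : 0 < Mel a (-3 - d) X3 := by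
    have hsq : X3 ≤ X3 ^ 2 := by nlinarith
    have h := L_upper (a := a) (d := d) (X := X3) (hL a (-3 - d)) (by linarith) (by linarith)
      hd0.le (by nlinarith)
    rw [hLa] at h
    have h2 : (a + 3) * X3 - d / 2 * (X3 ^ 2 / 2 - X3) < 0 := by
      have e1 : 4 * (a + 3) + 2 * d < d * X3 := by
        have := mul_lt_mul_of_pos_left hX33 hd0
        have e : d * (4 * (a + 3) / d + 2) = 4 * (a + 3) + 2 * d := by
          field_simp
        linarith
      have e2 : (a + 3) * X3 - d / 2 * (X3 ^ 2 / 2 - X3)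
          = X3 * (4 * (a + 3) + 2 * d - d * X3) / 4 := by ring
      rw [e2]
      have : X3 * (4 * (a + 3) + 2 * d - d * X3) < 0 :=
        mul_neg_of_pos_of_neg (by linarith) (by linarith)
      linarith
    have := mul_neg_of_pos_of_neg (kp_pos X3) h2
    linarith
  -- X1
  set X1 : ℝ := min (1 / 2) (a / (2 * (3 + d))) with hX1
  have hX1p : 0 < X1 := lt_min (by norm_num) (by positivity)
  have hX1h : X1 ≤ 1 / 2 := min_le_left _ _
  have hM1 : 0 < Mel a (-3 - d) X1 := by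
    refine Mel_pos hX1p hd0.le ?_
    have e1 : X1 ≤ a / (2 * (3 + d)) := min_le_right _ _
    rw [le_div_iff₀ (by positivity)] at e1
    have e2 : X1 ^ 2 ≤ X1 := by nlinarith
    have e3 := mul_le_mul_of_nonneg_left e2 (show 0 ≤ 3 + d by linarith)
    nlinarith
  -- the third step
  obtain ⟨B0, B1, B3, hB⟩ := Mel_lin X1
  obtain ⟨C0, C1, C3, hC⟩ := Mel_lin X3
  obtain ⟨f1, hf1, g1⟩ := small (p := -Mel a (-3 - d) X1) (q := B0) (by linarith)
  obtain ⟨f2, hf2, g2⟩ := small (p := Mel a (-3 - d) X2) (q := -A0) hM2a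
  obtain ⟨f3, hf3, g3⟩ := small (p := -Mel a (-3 - d) X3) (q := C0) (by linarith)
  set t : ℝ := min (min f1 f2) (min f3 1) with ht
  have ht0 : 0 < t := lt_min (lt_min hf1 hf2) (lt_min hf3 one_pos)
  have g1' := g1 t ht0 ((min_le_left _ _).trans (min_le_left _ _))
  have g2' := g2 t ht0 ((min_le_left _ _).trans (min_le_right _ _))
  have g3' := g3 t ht0 ((min_le_right _ _).trans (min_le_left _ _))
  have ht1 : t ≤ 1 := (min_le_right _ _).trans (min_le_right _ _)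
  set X4 : ℝ := X3 + (2 * d + 18) * 48 / (t * L0) with hX4
  have hq4 : 0 < (2 * d + 18) * 48 / (t * L0) :=
    div_pos (mul_pos (by linarith only [hd0]) (by norm_num)) (mul_pos ht0 hp0)
  have hX41 : 13 ≤ X4 := by linarith only [hX4, hq4, hX31]
  refine ⟨a - t, -3 - d, X1, X2, X3, X4, hX1p, by linarith only [hX1h, hX21],
    by linarith only [hX3, hq, hap], by linarith only [hX4, hq4], ?_, ?_, ?_, ?_⟩
  · rw [hB] at g1' ⊢
    linarith
  · rw [hA] at g2' ⊢
    linarith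
  · rw [hC] at g3' ⊢
    linarith
  · exact last_step (L := (a - t) * L0 + (-3 - d) * L1 + L3) (hL (a - t) (-3 - d))
      (by linarith only [ht1, hap]) hd0.le (mul_pos ht0 hp0)
      (by linarith only [hLa]) (by linarith only [hX41]) (by
        rw [hX4]
        have e3 : 0 < X3 := by linarith only [hX31]
        linarith only [e3])

end Pool.Agent.W99.HC
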